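import Pool.Agent.W235.BLV.Main

/-!
The equivalence of (i) and (ii) for log Fano and log Calabi-Yau complements in families.
-/

set_option autoImplicit false
set_option linter.unusedSectionVars false

namespace Pool.Agent.W235.BLV

open MvPolynomial IsDedekindDomain
open Pool.Agent.H159R3.Exp (Laur)
open scoped NumberField LinearAlgebra.Projectivization

theorem mk_ne {L : Type*} [Field L] {N : ℕ} (x x' : Fin (N + 1) → L) (hx : x ≠ 0) (hx' : x' ≠ 0)
    (h : Projectivization.mk L x hx = Projectivization.mk L x' hx') (i j : Fin (N + 1)) :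
    x i * x' j - x j * x' i = 0 := by
  rw [Projectivization.mk_eq_mk_iff'] at h
  obtain ⟨a, rfl⟩ := h
  simp only [Pi.smul_apply, smul_eq_mul]
  ring

theorem Laur.differentiable_exp {φ : ℂ → ℂ} (h : Laur φ) :
    Differentiable ℂ fun ζ => φ (Complex.exp ζ) := by
  obtain ⟨M, Q, hQ⟩ := h
  have h1 : (fun ζ => φ (Complex.exp ζ)) = fun ζ => Q.eval (Complex.exp ζ) *
      (Complex.exp (-ζ)) ^ M := by
    funext ζ
    rw [← hQ _ (Complex.exp_ne_zero ζ), Complex.exp_neg, mul_assoc, ← mul_pow,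
      mul_inv_cancel₀ (Complex.exp_ne_zero ζ), one_pow, mul_one]
  rw [h1]
  have h2 : Differentiable ℂ fun ζ => Q.eval (Complex.exp ζ) :=
    Q.differentiable.comp Complex.differentiable_exp
  have h3 : Differentiable ℂ fun ζ : ℂ => Complex.exp (-ζ) := by fun_prop
  exact h2.mul (h3.pow M)

theorem ev_zero_ne {R L : Type*} [CommRing R] [Field L] {m N : ℕ} (φ : R →+* L)
    (y : Fin m → L) {G : Forms R m N} {e : ℕ} (he : 1 ≤ e) (hG : G.IsHomogeneous e)
    {x : Fin (N + 1) → L} (h : ev φ y x G ≠ 0) : x ≠ 0 := by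
  rintro rfl
  apply h
  have h1 := ev_smul φ y (0 : Fin (N + 1) → L) 0 hG
  rw [zero_pow (by omega), zero_mul] at h1
  rw [← h1]
  congr 1
  funext i
  simp

section

variable {K : Type} [Field K] [NumberField K] (σ : K →+* ℂ) {m N : ℕ} {ι θ κ : Type} [Fintype ι]
  (F : ι → Forms (𝓞 K) m N) (d : ι → ℕ) (hF : ∀ j, (F j).IsHomogeneous (d j))
  (G : θ → Forms (𝓞 K) m N) (e : θ → ℕ) (he : ∀ k, 1 ≤ e k) (hG : ∀ k, (G k).IsHomogeneous (e k))
  (hd : ∀ k, ∑ j, d j + e k ≤ N + 1)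
  (hex : ∑ j, d j = N → ∃ j, 2 ≤ d j)
  (H : κ → Forms (𝓞 K) m N) (h : κ → ℕ) (hH : ∀ l, (H l).IsHomogeneous (h l))

include hF he hG hd hex in
/-- through every complex point of `V` there is a Laurent curve in the fibre -/
theorem exists_laurent (k : θ) (y : Fin m → ℂ) (p : Fin (N + 1) → ℂ)
    (hpF : ∀ j, ev (σ.comp (algebraMap (𝓞 K) K)) y p (F j) = 0)
    (hpG : ev (σ.comp (algebraMap (𝓞 K) K)) y p (G k) ≠ 0) :
    ∃ (x : ℂ → Fin (N + 1) → ℂ) (z : ℂ → ℂ) (k1 : ℕ) (i j : Fin (N + 1)),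
      (∀ i, Laur fun t => x t i) ∧ Laur z ∧
      (∀ t, t ≠ 0 → ∀ j, ev (σ.comp (algebraMap (𝓞 K) K)) y (x t) (F j) = 0) ∧
      (∀ t, t ≠ 0 → z t * ev (σ.comp (algebraMap (𝓞 K) K)) y (x t) (G k) = 1) ∧ x 1 = p ∧
      x (2 ^ k1) i * p j - x (2 ^ k1) j * p i ≠ 0 := by
  have hp0 : p ≠ 0 := ev_zero_ne (σ.comp (algebraMap (𝓞 K) K)) y (he k) (hG k) hpG
  simp only [ev_eq] at *
  apply laurent_of_hasCurve hpG hp0
  rcases key d _ (fun j => (hF j).map _) p hpF (e k) (he k) _ ((hG k).map _) (hd k) hpG with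
    h1 | h1
  · exact h1
  · obtain ⟨j, hj⟩ := hex h1.2.2.1
    have := h1.2.1 j
    omega

include hF he hG hd hex hH in
theorem not_entire (P : (Fin m → ℂ) × ℙ ℂ (Fin (N + 1) → ℂ))
    (hP : OnV (σ.comp (algebraMap (𝓞 K) K)) F G P) (l : κ)
    (hl : ev (σ.comp (algebraMap (𝓞 K) K)) P.1 P.2.rep (H l) ≠ 0) :
    ¬ EntireCurvesIn σ F G H := by
  obtain ⟨k, hk⟩ := hP.2
  obtain ⟨x, z, k1, i, j, hx, hz, hxF, hxG, hx1, hij⟩ :=
    exists_laurent σ F d hF G e he hG hd hex k P.1 P.2.rep hP.1 hk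
  set φ := σ.comp (algebraMap (𝓞 K) K) with hφ
  have hG0 : ∀ t, t ≠ 0 → ev φ P.1 (x t) (G k) ≠ 0 := by
    intro t ht h0
    have := hxG t ht
    rw [h0, mul_zero] at this
    exact zero_ne_one this
  have hx0 : ∀ t, t ≠ 0 → x t ≠ 0 := fun t ht => ev_zero_ne φ P.1 (he k) (hG k) (hG0 t ht)
  have hxe : ∀ ζ, x (Complex.exp ζ) ≠ 0 := fun ζ => hx0 _ (Complex.exp_ne_zero ζ)
  intro hcon
  have h1 := hcon (fun ζ => (P.1, Projectivization.mk ℂ (x (Complex.exp ζ)) (hxe ζ))) ?_ ?_ ?_ ?_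
    0 l
  · rw [ev_rep φ P.1 _ (hxe 0) (hH l), Complex.exp_zero, hx1] at h1
    exact hl h1
  · intro ζ
    refine ⟨fun j => ?_, k, ?_⟩
    · rw [ev_rep φ P.1 _ (hxe ζ) (hF j)]
      exact hxF _ (Complex.exp_ne_zero ζ) j
    · rw [Ne, ev_rep φ P.1 _ (hxe ζ) (hG k)]
      exact hG0 _ (Complex.exp_ne_zero ζ)
  · intro i
    exact differentiable_const _
  · intro ζ₀
    refine ⟨fun ζ => x (Complex.exp ζ), ?_, Filter.Eventually.of_forall fun ζ => ⟨hxe ζ, rfl⟩⟩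
    have h2 : Differentiable ℂ fun ζ => x (Complex.exp ζ) := by
      rw [differentiable_pi]
      intro i
      exact Laur.differentiable_exp (hx i)
    exact h2.analyticAt ζ₀
  · refine ⟨Complex.log (2 ^ k1), 0, fun heq => hij ?_⟩
    have h2 := congrArg Prod.snd heq
    simp only at h2
    have h3 := mk_ne _ _ _ _ h2 i j
    rw [Complex.exp_zero, hx1, Complex.exp_log (pow_ne_zero _ two_ne_zero)] at h3
    exact h3

include hF he hG hd hex hH in
theorem not_finite (P : (Fin m → ℂ) × ℙ ℂ (Fin (N + 1) → ℂ))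
    (hP : OnV (σ.comp (algebraMap (𝓞 K) K)) F G P) (l : κ)
    (hl : ev (σ.comp (algebraMap (𝓞 K) K)) P.1 P.2.rep (H l) ≠ 0) :
    ¬ FinitelyManyIntegral F e G H := by
  classical
  obtain ⟨k₀, hk₀⟩ := hP.2
  obtain ⟨x, z, k1, i, j, hx, hz, hxF, hxG, hx1, hij⟩ :=
    exists_laurent σ F d hF G e he hG hd hex k₀ P.1 P.2.rep hP.1 hk₀
  let _ : Algebra K ℂ := σ.toAlgebra
  have hφ : (algebraMap K ℂ).comp (algebraMap (𝓞 K) K) = σ.comp (algebraMap (𝓞 K) K) := rfl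
  let v : ℂ → Vars m N → ℂ := fun t => Sum.elim P.1 (Sum.elim (x t) (fun _ => z t))
  have hvL : ∀ c, Laur fun t => v t c := by
    rintro (c | c | c)
    · exact Laur.const _
    · exact hx c
    · exact hz
  let W : MvPolynomial (Vars m N ⊕ Vars m N) K := rename Sum.inl (flat (H l)) *
    (X (Sum.inr (Sum.inr (Sum.inl i))) * X (Sum.inl (Sum.inr (Sum.inl j))) -
      X (Sum.inr (Sum.inr (Sum.inl j))) * X (Sum.inl (Sum.inr (Sum.inl i))))
  have hWev : ∀ (M : Type) [Field M] [Algebra K M] (v1 v2 : Vars m N → M),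
      aeval (Sum.elim v1 v2) W = ev ((algebraMap K M).comp (algebraMap (𝓞 K) K))
        (fun c => v1 (Sum.inl c)) (fun c => v1 (Sum.inr (Sum.inl c))) (H l) *
        (v2 (Sum.inr (Sum.inl i)) * v1 (Sum.inr (Sum.inl j)) -
          v2 (Sum.inr (Sum.inl j)) * v1 (Sum.inr (Sum.inl i))) := by
    intro M _ _ v1 v2
    simp only [W, map_mul, map_sub, aeval_X, aeval_rename, Sum.elim_comp_inl, aeval_flat,
      Sum.elim_inr, Sum.elim_inl]
  obtain ⟨L, i1, i2, i3, i4, v', hv', hv'F, hv'W⟩ := descend' (eqs F (G k₀)) W v hvL (by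
    rintro (_ | j) t ht
    · simp only [eqs, map_sub, map_mul, aeval_X, map_one, aeval_flat, hφ, v, Sum.elim_inr,
        Sum.elim_inl]
      rw [hxG t ht, sub_self]
    · simp only [eqs, aeval_flat, hφ, v, Sum.elim_inr, Sum.elim_inl]
      exact hxF t ht j) k1 (by
    rw [hWev ℂ]
    simp only [hφ, v, Sum.elim_inr, Sum.elim_inl, hx1]
    exact mul_ne_zero hl hij)
  set ψ := (algebraMap K L).comp (algebraMap (𝓞 K) K) with hψ
  let Y : L → Fin m → L := fun t c => v' t (Sum.inl c)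
  let Z : L → Fin (N + 1) → L := fun t c => v' t (Sum.inr (Sum.inl c))
  let w : L → L := fun t => v' t (Sum.inr (Sum.inr ()))
  have hYF : ∀ t, t ≠ 0 → ∀ j, ev ψ (Y t) (Z t) (F j) = 0 := by
    intro t ht j
    have := hv'F (some j) t ht
    simpa only [eqs, aeval_flat] using this
  have hYG : ∀ t, t ≠ 0 → w t * ev ψ (Y t) (Z t) (G k₀) = 1 := by
    intro t ht
    have := hv'F none t ht
    simp only [eqs, map_sub, map_mul, aeval_X, map_one, aeval_flat] at this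
    exact sub_eq_zero.mp this
  have hYG0 : ∀ t, t ≠ 0 → ev ψ (Y t) (Z t) (G k₀) ≠ 0 := by
    intro t ht h0
    have := hYG t ht
    rw [h0, mul_zero] at this
    exact zero_ne_one this
  have hZ0 : ∀ t, t ≠ 0 → Z t ≠ 0 := fun t ht => ev_zero_ne ψ _ (he k₀) (hG k₀) (hYG0 t ht)
  rw [hWev L] at hv'W
  have hv'H : ev ψ (Y 1) (Z 1) (H l) ≠ 0 := left_ne_zero_of_mul hv'W
  have hv'm : Z (2 ^ k1) i * Z 1 j - Z (2 ^ k1) j * Z 1 i ≠ 0 := right_ne_zero_of_mul hv'W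
  obtain ⟨S, hS, hint⟩ := integral_pts' v' hv'
  intro hcon
  have hfin := hcon L S hS
  -- the points
  have h2k : ∀ k : ℕ, (2 : L) ^ k ≠ 0 := fun k => pow_ne_zero _ two_ne_zero
  let Q : ℕ → (Fin m → L) × ℙ L (Fin (N + 1) → L) := fun k =>
    (Y (2 ^ k), Projectivization.mk L (Z (2 ^ k)) (hZ0 _ (h2k k)))
  have hYL : ∀ c, Laur fun t => Y t c := fun c => hv' _
  have hZL : ∀ c, Laur fun t => Z t c := fun c => hv' _
  have hHL : Laur fun t => ev ψ (Y t) (Z t) (H l) := by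
    have h1 := Laur.eval₂ (algebraMap K L) v' hv' (flat (H l))
    have h2 : (fun t => MvPolynomial.eval₂ (algebraMap K L) (v' t) (flat (H l))) =
        fun t => ev ψ (Y t) (Z t) (H l) := by
      funext t
      exact aeval_flat (v' t) (H l)
    rwa [h2] at h1
  have hbad : {k : ℕ | ev ψ (Y (2 ^ k)) (Z (2 ^ k)) (H l) = 0}.Finite :=
    hHL.finite_zeros ⟨1, one_ne_zero, hv'H⟩
  have hgood : ({k : ℕ | ev ψ (Y (2 ^ k)) (Z (2 ^ k)) (H l) = 0}ᶜ).Infinite :=
    hbad.infinite_compl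
  have hmaps : ∀ k ∈ ({k : ℕ | ev ψ (Y (2 ^ k)) (Z (2 ^ k)) (H l) = 0}ᶜ), Q k ∈
      {P ∈ IntegralPoints K L S F e G | ∃ l, ev ψ P.1 P.2.rep (H l) ≠ 0} := by
    intro k hk
    have hGk : ev ψ (Y (2 ^ k)) (Projectivization.mk L (Z (2 ^ k)) (hZ0 _ (h2k k))).rep
        (G k₀) ≠ 0 := by
      rw [Ne, ev_rep ψ _ _ _ (hG k₀)]
      exact hYG0 _ (h2k k)
    refine ⟨⟨⟨fun j => ?_, k₀, hGk⟩, fun c => hint k _, fun v hvS => ⟨k₀, hGk, fun α hα => ?_⟩⟩,
      l, ?_⟩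
    · exact (ev_rep ψ _ _ _ (hF j)).mpr (hYF _ (h2k k) j)
    · change v.valuation L (coord ψ (G k₀) α
        (Y (2 ^ k), Projectivization.mk L (Z (2 ^ k)) (hZ0 _ (h2k k)))) ≤ 1
      rw [coord_mk ψ _ _ _ (hG k₀) α hα]
      have h3 : BLV.mon (Z (2 ^ k)) α / ev ψ (Y (2 ^ k)) (Z (2 ^ k)) (G k₀) =
          BLV.mon (Z (2 ^ k)) α * w (2 ^ k) := by
        rw [div_eq_iff (hYG0 _ (h2k k)), mul_assoc, hYG _ (h2k k), mul_one]
      rw [h3]
      have h4 : BLV.mon (Z (2 ^ k)) α * w (2 ^ k) ∈ S.integer L := by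
        refine (S.integer L).mul_mem ?_ (hint k _)
        exact (S.integer L).prod_mem fun c _ => (S.integer L).pow_mem (hint k _) _
      exact h4 v hvS
    · rw [Ne, ev_rep ψ _ _ _ (hH l)]
      exact hk
  -- infinitely many of the indices have the same point
  obtain ⟨k0, -, hk0⟩ : ∃ k0 ∈ ({k : ℕ | ev ψ (Y (2 ^ k)) (Z (2 ^ k)) (H l) = 0}ᶜ),
      {k : ℕ | Q k = Q k0}.Infinite := by
    by_contra hno
    push Not at hno
    apply hgood
    have h3 : ({k : ℕ | ev ψ (Y (2 ^ k)) (Z (2 ^ k)) (H l) = 0}ᶜ) ⊆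
        ⋃ R ∈ {P ∈ IntegralPoints K L S F e G | ∃ l, ev ψ P.1 P.2.rep (H l) ≠ 0},
          {k ∈ ({k : ℕ | ev ψ (Y (2 ^ k)) (Z (2 ^ k)) (H l) = 0}ᶜ) | Q k = R} := by
      intro k hk
      exact Set.mem_biUnion (hmaps k hk) ⟨hk, rfl⟩
    refine Set.Finite.subset (hfin.biUnion fun R _ => ?_) h3
    by_cases hne : {k ∈ ({k : ℕ | ev ψ (Y (2 ^ k)) (Z (2 ^ k)) (H l) = 0}ᶜ) | Q k = R}.Nonempty
    · obtain ⟨k0, hk0, hk0'⟩ := hne
      refine (hno k0 hk0).subset ?_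
      intro k hk
      show Q k = Q k0
      rw [hk.2, hk0']
    · rw [Set.not_nonempty_iff_eq_empty.mp hne]
      exact Set.finite_empty
  have hmin : ∀ a b t, t ≠ 0 → Z t a * Z (2 ^ k0) b - Z t b * Z (2 ^ k0) a = 0 := by
    intro a b
    have h3 : Laur fun t => Z t a * Z (2 ^ k0) b - Z t b * Z (2 ^ k0) a := by
      have h4 := ((hZL a).mul (Laur.const (Z (2 ^ k0) b))).add
        ((hZL b).mul (Laur.const (-Z (2 ^ k0) a)))
      have h5 : (fun t => Z t a * Z (2 ^ k0) b + Z t b * -Z (2 ^ k0) a) =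
        fun t => Z t a * Z (2 ^ k0) b - Z t b * Z (2 ^ k0) a := by
        funext t
        ring
      rwa [h5] at h4
    by_contra hne
    push Not at hne
    obtain ⟨t, ht, ht'⟩ := hne
    have h6 := h3.finite_zeros ⟨t, ht, ht'⟩
    apply hk0
    refine h6.subset ?_
    intro k hk
    have h7 := congrArg Prod.snd (show Q k = Q k0 from hk)
    exact mk_ne _ _ _ _ h7 a b
  apply hv'm
  obtain ⟨b, hb⟩ : ∃ b, Z (2 ^ k0) b ≠ 0 := by
    by_contra hno
    push Not at hno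
    exact hZ0 _ (h2k k0) (funext hno)
  have e1 := hmin i b _ (h2k k1)
  have e2 := hmin j b _ (h2k k1)
  have e3 := hmin i b 1 one_ne_zero
  have e4 := hmin j b 1 one_ne_zero
  have h8 : (Z (2 ^ k1) i * Z 1 j - Z (2 ^ k1) j * Z 1 i) * Z (2 ^ k0) b ^ 2 = 0 := by
    have f1 : Z (2 ^ k1) i * Z (2 ^ k0) b = Z (2 ^ k1) b * Z (2 ^ k0) i := sub_eq_zero.mp e1
    have f2 : Z (2 ^ k1) j * Z (2 ^ k0) b = Z (2 ^ k1) b * Z (2 ^ k0) j := sub_eq_zero.mp e2
    have f3 : Z 1 i * Z (2 ^ k0) b = Z 1 b * Z (2 ^ k0) i := sub_eq_zero.mp e3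
    have f4 : Z 1 j * Z (2 ^ k0) b = Z 1 b * Z (2 ^ k0) j := sub_eq_zero.mp e4
    calc (Z (2 ^ k1) i * Z 1 j - Z (2 ^ k1) j * Z 1 i) * Z (2 ^ k0) b ^ 2
        = (Z (2 ^ k1) i * Z (2 ^ k0) b) * (Z 1 j * Z (2 ^ k0) b) -
          (Z (2 ^ k1) j * Z (2 ^ k0) b) * (Z 1 i * Z (2 ^ k0) b) := by ring
      _ = 0 := by rw [f1, f2, f3, f4]; ring
  exact (mul_eq_zero.mp h8).resolve_right (pow_ne_zero _ hb)

include hF hG hH in
theorem finite_of_allIn (hall : AllIn σ F G H) : FinitelyManyIntegral F e G H := by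
  intro L _ _ _ S _
  convert Set.finite_empty
  rw [Set.eq_empty_iff_forall_notMem]
  rintro P ⟨⟨hP, -⟩, l, hl⟩
  apply hl
  let _ : Algebra K ℂ := σ.toAlgebra
  have : Algebra.IsAlgebraic K L := by
    have := NumberField.to_finiteDimensional (K := L)
    have : IsScalarTower ℚ K L := by infer_instance
    have : FiniteDimensional K L := FiniteDimensional.right ℚ K L
    infer_instance
  let τ : L →ₐ[K] ℂ := IsAlgClosed.lift
  have hτi : Function.Injective τ := (τ : L →+* ℂ).injective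
  have hτ : ∀ Q : Forms (𝓞 K) m N,
      τ (ev ((algebraMap K L).comp (algebraMap (𝓞 K) K)) P.1 P.2.rep Q) =
        ev (σ.comp (algebraMap (𝓞 K) K)) (fun j => τ (P.1 j)) (fun j => τ (P.2.rep j)) Q := by
    intro Q
    unfold ev
    have h1 : (τ : L →+* ℂ).comp (eval₂Hom ((algebraMap K L).comp (algebraMap (𝓞 K) K)) P.1) =
        eval₂Hom (σ.comp (algebraMap (𝓞 K) K)) (fun j => τ (P.1 j)) := by
      apply MvPolynomial.ringHom_ext
      · intro a
        simp only [RingHom.comp_apply, coe_eval₂Hom, eval₂_C]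
        exact τ.commutes _
      · intro j
        simp
    have h2 := MvPolynomial.hom_eval₂ Q
      (eval₂Hom ((algebraMap K L).comp (algebraMap (𝓞 K) K)) P.1) (τ : L →+* ℂ) P.2.rep
    rw [h1] at h2
    exact h2
  have hx0 : (fun j => τ (P.2.rep j)) ≠ 0 := by
    intro h0
    apply P.2.rep_nonzero
    funext j
    have := congrFun h0 j
    exact (map_eq_zero_iff (τ : L →+* ℂ) hτi).1 this
  obtain ⟨k, hk⟩ := hP.2
  have h3 := hall (fun j => τ (P.1 j), Projectivization.mk ℂ _ hx0) (by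
    refine ⟨fun j => ?_, k, ?_⟩
    · rw [ev_rep _ _ _ _ (hF j), ← hτ, hP.1 j, map_zero]
    · rw [Ne, ev_rep _ _ _ _ (hG k), ← hτ]
      intro h0
      exact hk ((map_eq_zero_iff (τ : L →+* ℂ) hτi).1 h0)) l
  rw [ev_rep _ _ _ _ (hH l), ← hτ] at h3
  exact (map_eq_zero_iff (τ : L →+* ℂ) hτi).1 h3

include hF he hG hd hex hH in
/-- (i) and (ii) are equivalent, and hold only if `V` is contained in `V'` -/
theorem blv : (EntireCurvesIn σ F G H ↔ FinitelyManyIntegral F e G H) ∧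
    (EntireCurvesIn σ F G H ↔ AllIn σ F G H) := by
  by_cases hall : AllIn σ F G H
  · have h1 : EntireCurvesIn σ F G H := fun f hf _ _ _ ζ l => hall (f ζ) (hf ζ) l
    have h2 := finite_of_allIn σ F d hF G e hG H h hH hall
    exact ⟨⟨fun _ => h2, fun _ => h1⟩, ⟨fun _ => hall, fun _ => h1⟩⟩
  · have hall' := hall
    unfold AllIn at hall
    push Not at hall
    obtain ⟨P, hP, l, hl⟩ := hall
    have h1 := not_entire σ F d hF G e he hG hd hex H h hH P hP l hl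
    have h2 := not_finite σ F d hF G e he hG hd hex H h hH P hP l hl
    exact ⟨⟨fun h => absurd h h1, fun h => absurd h h2⟩, ⟨fun h => absurd h h1,
      fun h => absurd h hall'⟩⟩

end

end Pool.Agent.W235.BLV
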