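import Mathlib
import Pool.Agent.H952R2.Sextic.CommonZero

/-!
Conics through a point: specialisation with respect to a valuation.
-/

set_option autoImplicit false

namespace Pool.Agent.W235.BLV

open MvPolynomial

/-- the point with parameter `τ` of the conic with data `α β b` -/
def cpt {k : Type*} [CommRing k] {V : Type*} (α β : V → k) (b : k) (τ : k) : Option V → k
  | none => 1 + b * τ
  | some i => τ * (α i + β i * τ)

/-- the base point `(1; 0)` -/
def bpt {k : Type*} [CommRing k] {V : Type*} : Option V → k
  | none => 1
  | some _ => 0

/-- there is a nonconstant conic (or line) through the base point on which all `F j` vanish -/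
def Sol {k : Type*} [Field k] {V ι : Type*} (F : ι → MvPolynomial (Option V) k) : Prop :=
  ∃ (α β : V → k) (b : k), (∃ i, α i ≠ 0 ∨ β i ≠ 0) ∧
    ∀ j (m : ℕ), eval (cpt α β b (m : k)) (F j) = 0

theorem eval_smul_of_hom {k : Type*} [CommRing k] {σ : Type*} {F : MvPolynomial σ k} {d : ℕ}
    (hF : F.IsHomogeneous d) (c : k) (x : σ → k) :
    eval (fun i => c * x i) F = c ^ d * eval x F := by
  rw [eval_eq, eval_eq, Finset.mul_sum]
  refine Finset.sum_congr rfl fun α hα => ?_
  have h1 : ∑ i ∈ α.support, α i = d := by
    have := hF (mem_support_iff.mp hα)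
    rw [← this]
    simp [Finsupp.weight_apply, Finsupp.sum]
  simp only [mul_pow]
  rw [Finset.prod_mul_distrib, Finset.prod_pow_eq_pow_sum, h1]
  ring

/-- the polynomial `F` on the conic, as a polynomial in the parameter -/
noncomputable def cpoly {k : Type*} [CommRing k] {V : Type*} (α β : V → k) (b : k)
    (F : MvPolynomial (Option V) k) : Polynomial k :=
  eval₂ Polynomial.C (fun i => match i with
    | none => 1 + Polynomial.C b * Polynomial.X
    | some i => Polynomial.X * (Polynomial.C (α i) + Polynomial.C (β i) * Polynomial.X)) F

theorem eval_cpoly {k : Type*} [CommRing k] {V : Type*} (α β : V → k) (b : k)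
    (F : MvPolynomial (Option V) k) (τ : k) :
    (cpoly α β b F).eval τ = eval (cpt α β b τ) F := by
  unfold cpoly
  rw [← Polynomial.coe_evalRingHom, hom_eval₂]
  have h1 : (Polynomial.evalRingHom τ).comp (Polynomial.C : k →+* Polynomial k) = RingHom.id k := by
    ext x
    simp
  rw [h1, eval₂_id]
  congr 1
  congr 1
  funext i
  cases i <;> simp [cpt]

theorem all_of_nat {k : Type*} [Field k] [CharZero k] {V : Type*} (α β : V → k) (b : k)
    (F : MvPolynomial (Option V) k) (h : ∀ m : ℕ, eval (cpt α β b (m : k)) F = 0) (τ : k) :
    eval (cpt α β b τ) F = 0 := by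
  have h1 : cpoly α β b F = 0 := by
    apply Polynomial.eq_zero_of_infinite_isRoot
    refine Set.infinite_of_injective_forall_mem (f := fun m : ℕ => (m : k)) Nat.cast_injective ?_
    intro m
    change (cpoly α β b F).eval (m : k) = 0
    rw [eval_cpoly]
    exact h m
  rw [← eval_cpoly, h1, Polynomial.eval_zero]

theorem cpt_map {k l : Type*} [CommRing k] [CommRing l] (φ : k →+* l) {V : Type*} (α β : V → k)
    (b : k) (τ : k) : (fun i => φ (cpt α β b τ i)) = cpt (fun i => φ (α i)) (fun i => φ (β i))
      (φ b) (φ τ) := by
  funext i
  cases i <;> simp [cpt]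

theorem eval_map' {k l : Type*} [CommRing k] [CommRing l] (φ : k →+* l) {σ : Type*}
    (F : MvPolynomial σ k) (x : σ → k) : eval (fun i => φ (x i)) (map φ F) = φ (eval x F) := by
  have h := eval₂_comp_left φ (RingHom.id k) x F
  rw [eval_map]
  rw [eval₂_id, RingHom.comp_id] at h
  exact h.symm

/-- choice of an element of maximal size -/
theorem exists_max {K : Type*} [Field K] (O : ValuationSubring K) {I : Type*} [Finite I]
    (g : I → K) (h : ∃ i, g i ≠ 0) : ∃ i0, g i0 ≠ 0 ∧ ∀ i, g i / g i0 ∈ O := by
  classical
  obtain ⟨i1, hi1⟩ := h
  have : Nonempty I := ⟨i1⟩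
  obtain ⟨i0, hi0⟩ := Finite.exists_max (fun i => O.valuation (g i))
  have h0 : g i0 ≠ 0 := by
    intro h0
    have h1 := hi0 i1
    rw [h0, map_zero, le_zero_iff, map_eq_zero] at h1
    exact hi1 h1
  refine ⟨i0, h0, fun i => ?_⟩
  rw [← O.valuation_le_one_iff, map_div₀]
  exact div_le_one_of_le₀ (hi0 i) zero_le


section

variable {K : Type*} [Field K] (O : ValuationSubring K)

theorem red {σ : Type*} (F : MvPolynomial σ O) (y : σ → O)
    (h : eval (fun i => (y i : K)) (map (algebraMap O K) F) = 0) :
    eval (fun i => IsLocalRing.residue O (y i)) (map (IsLocalRing.residue O) F) = 0 := by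
  have h1 : eval y F = 0 := by
    apply (FaithfulSMul.algebraMap_injective O K)
    rw [map_zero, ← eval_map']
    exact h
  rw [eval_map', h1, map_zero]

theorem mem_of_sq {x : K} (h : x ^ 2 ∈ O) : x ∈ O := by
  rw [← O.valuation_le_one_iff] at h ⊢
  rw [map_pow] at h
  by_contra hcon
  rw [not_le] at hcon
  exact absurd h (not_le.mpr (one_lt_pow₀ hcon two_ne_zero))

theorem residue_eq_zero {x : O} (h : (x : K) ≠ 0 → ((x : K))⁻¹ ∉ O) : IsLocalRing.residue O x = 0 := by
  rw [IsLocalRing.residue_eq_zero_iff, IsLocalRing.mem_maximalIdeal, mem_nonunits_iff]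
  intro hu
  obtain ⟨u, hu⟩ := hu
  have h1 : (x : K) * ((↑u⁻¹ : O) : K) = 1 := by
    have := congrArg (fun z : O => (z : K)) (u.mul_inv)
    rw [hu] at this
    exact this
  have h2 : (x : K) ≠ 0 := left_ne_zero_of_mul_eq_one h1
  apply h h2
  rw [inv_eq_of_mul_eq_one_right h1]
  exact SetLike.coe_mem _

theorem specialize [CharZero K] [CharZero (IsLocalRing.ResidueField O)] {V ι : Type*} [Finite V]
    (F : ι → MvPolynomial (Option V) O) (d : ι → ℕ) (hF : ∀ j, (F j).IsHomogeneous (d j))
    (h0 : ∀ j, eval bpt (F j) = 0) (α γ : V → K) (b : K) (hne : ∃ i, α i ≠ 0 ∨ γ i ≠ 0)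
    (h : ∀ j (m : ℕ), eval (cpt α (fun i => γ i ^ 2) b (m : K)) (map (algebraMap O K) (F j)) = 0) :
    Sol (fun j => map (IsLocalRing.residue O) (F j)) := by
  classical
  have hall : ∀ j (τ : K), eval (cpt α (fun i => γ i ^ 2) b τ) (map (algebraMap O K) (F j)) = 0 :=
    fun j τ => all_of_nat _ _ _ _ (h j) τ
  obtain ⟨i0, hi0, hmax⟩ := exists_max O (Sum.elim α γ) (by
    obtain ⟨i, hi | hi⟩ := hne
    · exact ⟨Sum.inl i, hi⟩
    · exact ⟨Sum.inr i, hi⟩)
  set ρ := Sum.elim α γ i0 with hρ
  have hα' : ∀ i, α i / ρ ∈ O := fun i => hmax (Sum.inl i)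
  have hγ' : ∀ i, γ i / ρ ∈ O := fun i => hmax (Sum.inr i)
  set α' : V → O := fun i => ⟨α i / ρ, hα' i⟩ with hα'def
  set γ' : V → O := fun i => ⟨γ i / ρ, hγ' i⟩ with hγ'def
  have hone : ∃ i, α' i = 1 ∨ γ' i = 1 := by
    rcases i0 with i | i
    · refine ⟨i, Or.inl ?_⟩
      apply Subtype.ext
      change α i / ρ = 1
      have : α i = ρ := rfl
      rw [this, div_self hi0]
    · refine ⟨i, Or.inr ?_⟩
      apply Subtype.ext
      change γ i / ρ = 1
      have : γ i = ρ := rfl
      rw [this, div_self hi0]
  set b' : K := b / ρ with hb'
  have hall' : ∀ j (τ : K), eval (cpt (fun i => (α' i : K)) (fun i => ((γ' i : O) : K) ^ 2) b' τ)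
      (map (algebraMap O K) (F j)) = 0 := by
    intro j τ
    rw [← hall j (τ / ρ)]
    congr 1
    congr 1
    funext i
    cases i with
    | none => simp only [cpt, hb']; ring
    | some i =>
      simp only [cpt, hα'def, hγ'def]
      field_simp
  have hF0 : ∀ j, eval bpt (map (IsLocalRing.residue O) (F j)) = 0 := by
    intro j
    have h1 := eval_map' (IsLocalRing.residue O) (F j) bpt
    rw [h0 j, map_zero] at h1
    rw [← h1]
    congr 1
    congr 1
    funext i
    cases i <;> simp [bpt]
  by_cases hbO : b' ∈ O
  · refine ⟨fun i => IsLocalRing.residue O (α' i), fun i => IsLocalRing.residue O (γ' i ^ 2),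
      IsLocalRing.residue O ⟨b', hbO⟩, ?_, ?_⟩
    · obtain ⟨i, hi | hi⟩ := hone
      · refine ⟨i, Or.inl ?_⟩
        simp only [hi, map_one]
        exact one_ne_zero
      · refine ⟨i, Or.inr ?_⟩
        simp only [hi, one_pow, map_one]
        exact one_ne_zero
    · intro j m
      have h1 := red O (F j) (cpt α' (fun i => γ' i ^ 2) ⟨b', hbO⟩ (m : O)) (by
        rw [← hall' j (m : K)]
        congr 1
        congr 1
        funext i
        cases i with
        | none => simp [cpt]
        | some i => simp [cpt])
      rw [← h1]
      congr 1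
      congr 1
      funext i
      cases i with
      | none => simp [cpt]
      | some i => simp [cpt]
  · have hb0 : b' ≠ 0 := by
      rintro h
      apply hbO
      rw [h]
      exact O.zero_mem
    obtain ⟨binv, hbinv, hbr⟩ : ∃ binv : O, (binv : K) = b'⁻¹ ∧ IsLocalRing.residue O binv = 0 := by
      have hbi : b'⁻¹ ∈ O := (O.mem_or_inv_mem b').resolve_left hbO
      refine ⟨⟨b'⁻¹, hbi⟩, rfl, ?_⟩
      apply residue_eq_zero
      intro _
      change (b'⁻¹)⁻¹ ∉ O
      rwa [inv_inv]
    have hzero : ∀ (a : V → IsLocalRing.ResidueField O) (j : ι),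
        eval (cpt a 0 0 (((0 : ℕ) : IsLocalRing.ResidueField O)))
          (map (IsLocalRing.residue O) (F j)) = 0 := by
      intro a j
      rw [← hF0 j]
      congr 1
      congr 1
      funext i
      cases i with
      | none => simp [cpt, bpt]
      | some i => simp [cpt, bpt]
    by_cases hβ : ∃ i, (γ' i : K) ^ 2 ≠ 0
    · obtain ⟨i1, hi1, hmax1⟩ := exists_max O (fun i => ((γ' i : O) : K) ^ 2) hβ
      have hγ1 : ((γ' i1 : O) : K) ≠ 0 := fun h => hi1 (by simp only [h]; ring)
      obtain ⟨β', hβ'⟩ : ∃ β' : V → O, ∀ i, (β' i : K) = ((γ' i : O) : K) ^ 2 / ((γ' i1 : O) : K) ^ 2 :=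
        ⟨fun i => ⟨_, hmax1 i⟩, fun i => rfl⟩
      refine ⟨fun i => IsLocalRing.residue O (β' i), 0, 0, ⟨i1, Or.inl ?_⟩, ?_⟩
      · have : β' i1 = 1 := by
          apply Subtype.ext
          rw [hβ' i1]
          exact div_self hi1
        simp only [this, map_one]
        exact one_ne_zero
      · intro j m
        rcases Nat.eq_zero_or_pos m with rfl | hm
        · exact hzero _ j
        · obtain ⟨y, hy0, hy1⟩ : ∃ y : Option V → O,
              y none = (γ' i1) ^ 2 * binv ^ 2 + (m : O) ∧
              ∀ i, y (some i) = (m : O) * (α' i * binv) + β' i * (m : O) ^ 2 :=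
            ⟨fun i => match i with
            | none => (γ' i1) ^ 2 * binv ^ 2 + (m : O)
            | some i => (m : O) * (α' i * binv) + β' i * (m : O) ^ 2, rfl, fun i => rfl⟩
          have h1 := red O (F j) y (by
            have h2 := hall' j ((m : K) * b' / (γ' i1 : K) ^ 2)
            have h3 := eval_smul_of_hom ((hF j).map (algebraMap O K))
              ((γ' i1 : K) ^ 2 * (b'⁻¹) ^ 2) (cpt (fun i => (α' i : K))
                (fun i => ((γ' i : O) : K) ^ 2) b' ((m : K) * b' / (γ' i1 : K) ^ 2))
            rw [h2, mul_zero] at h3
            rw [← h3]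
            congr 1
            congr 1
            funext i
            cases i with
            | none =>
              rw [hy0]
              simp only [cpt]
              push_cast
              rw [hbinv]
              generalize ((γ' i1 : O) : K) = g at *
              field_simp
            | some i =>
              rw [hy1]
              simp only [cpt]
              push_cast
              rw [hbinv, hβ']
              generalize ((γ' i1 : O) : K) = g at *
              field_simp)
          have h4 := eval_smul_of_hom ((hF j).map (IsLocalRing.residue O))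
              (m : IsLocalRing.ResidueField O) (cpt (fun i => IsLocalRing.residue O (β' i)) 0 0
                (m : IsLocalRing.ResidueField O))
          have h5 : (m : IsLocalRing.ResidueField O) ^ d j ≠ 0 :=
            pow_ne_zero _ (Nat.cast_ne_zero.mpr hm.ne')
          have h6 : (m : IsLocalRing.ResidueField O) ^ d j * eval (cpt
              (fun i => IsLocalRing.residue O (β' i)) 0 0 (m : IsLocalRing.ResidueField O))
                (map (IsLocalRing.residue O) (F j)) = 0 := by
            refine h4.symm.trans (Eq.trans ?_ h1)
            congr 1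
            congr 1
            funext i
            cases i with
            | none =>
              rw [hy0]
              simp only [cpt, map_add, map_mul, map_pow, hbr, map_natCast]
              simp
            | some i =>
              rw [hy1]
              simp only [cpt, map_add, map_mul, map_pow, hbr, map_natCast]
              simp
              ring
          exact (mul_eq_zero.mp h6).resolve_left h5
    · push Not at hβ
      refine ⟨fun i => IsLocalRing.residue O (α' i), 0, 0, ?_, ?_⟩
      · obtain ⟨i, hi | hi⟩ := hone
        · refine ⟨i, Or.inl ?_⟩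
          simp only [hi, map_one]
          exact one_ne_zero
        · exfalso
          have := hβ i
          rw [hi] at this
          simp at this
      · intro j m
        rcases Nat.eq_zero_or_pos m with rfl | hm
        · exact hzero _ j
        · have hm0 : (m : K) ≠ 0 := Nat.cast_ne_zero.mpr hm.ne'
          have hmi : (m : K)⁻¹ ∈ O := by
            by_contra hcon
            have h1 : IsLocalRing.residue O (m : O) = 0 := by
              apply residue_eq_zero
              intro _
              exact hcon
            rw [map_natCast] at h1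
            exact hm.ne' (Nat.cast_eq_zero.mp h1)
          obtain ⟨δ, hδ⟩ : ∃ δ : K, δ = 1 - b' * m := ⟨_, rfl⟩
          have hne1 : δ ≠ 0 := by
            intro h1
            apply hbO
            have : b' = (m : K)⁻¹ := by
              field_simp
              linear_combination hδ - h1
            rw [this]
            exact hmi
          have h1 := red O (F j) (cpt α' 0 0 (m : O)) (by
            have h2 := hall' j ((m : K) / δ)
            have h3 := eval_smul_of_hom ((hF j).map (algebraMap O K)) δ
              (cpt (fun i => (α' i : K))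
                (fun i => ((γ' i : O) : K) ^ 2) b' ((m : K) / δ))
            rw [h2, mul_zero] at h3
            rw [← h3]
            congr 1
            congr 1
            funext i
            cases i with
            | none =>
              simp only [cpt]
              push_cast
              have : δ * (b' * (m / δ)) = b' * m := by field_simp
              linear_combination -this - hδ
            | some i =>
              simp only [cpt, hβ i]
              push_cast
              simp only [Pi.zero_apply, ZeroMemClass.coe_zero]
              field_simp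
              ring)
          refine Eq.trans ?_ h1
          congr 1
          congr 1
          funext i
          cases i with
          | none => simp only [cpt, map_add, map_mul, map_one, map_zero, map_natCast]
          | some i =>
            simp only [cpt, map_add, map_mul, map_one, map_zero, map_natCast, Pi.zero_apply]

end

end Pool.Agent.W235.BLV
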