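import Pool.Agent.W235.BLV.Seq

/-!
An explicit system with an unobstructed conic, and the inverse function theorem.
-/

set_option autoImplicit false
set_option linter.unusedSectionVars false

namespace Pool.Agent.W235.BLV

open MvPolynomial

section degree

theorem natDegree_eval₂_le {k : Type*} [CommRing k] {σ : Type*} (g : σ → Polynomial k)
    (hg : ∀ i, (g i).natDegree ≤ 2) {F : MvPolynomial σ k} {d : ℕ} (hF : F.IsHomogeneous d) :
    (eval₂ Polynomial.C g F).natDegree ≤ 2 * d := by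
  classical
  rw [eval₂_eq]
  apply Polynomial.natDegree_sum_le_of_forall_le
  intro α hα
  have h1 : ∑ i ∈ α.support, α i = d := by
    have := hF (mem_support_iff.mp hα)
    rw [← this]
    simp [Finsupp.weight_apply, Finsupp.sum]
  refine (Polynomial.natDegree_C_mul_le _ _).trans ?_
  refine (Polynomial.natDegree_prod_le _ _).trans ?_
  rw [← h1, Finset.mul_sum]
  apply Finset.sum_le_sum
  intro i _
  refine Polynomial.natDegree_pow_le.trans ?_
  rw [mul_comm]
  exact Nat.mul_le_mul_right _ (hg i)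

theorem natDegree_cpoly_le {k : Type*} [CommRing k] {V : Type*} (α β : V → k) (b : k)
    {F : MvPolynomial (Option V) k} {d : ℕ} (hF : F.IsHomogeneous d) :
    (cpoly α β b F).natDegree ≤ 2 * d := by
  apply natDegree_eval₂_le _ _ hF
  intro i
  cases i with
  | none =>
    simp only
    compute_degree
    norm_num
  | some i =>
    simp only
    compute_degree

theorem all_of_many {V : Type*} (α β : V → ℂ) {F : MvPolynomial (Option V) ℂ} {d : ℕ}
    (hF : F.IsHomogeneous d) (h : ∀ m : ℕ, m ≤ 2 * d → eval (cpt α β 1 (m : ℂ)) F = 0) (m : ℕ) :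
    eval (cpt α β 1 (m : ℂ)) F = 0 := by
  have h1 : cpoly α β 1 F = 0 := by
    apply Polynomial.eq_zero_of_natDegree_lt_card_of_eval_eq_zero (f := fun i : Fin (2 * d + 1) =>
      ((i : ℕ) : ℂ))
    · intro i j hij
      exact Fin.ext (Nat.cast_injective hij)
    · intro i
      rw [eval_cpoly]
      exact h i (Nat.le_of_lt_succ i.2)
    · rw [Fintype.card_fin]
      exact Nat.lt_succ_of_le (natDegree_cpoly_le _ _ _ hF)
  rw [← eval_cpoly, h1, Polynomial.eval_zero]

end degree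

section example_system

variable {ι : Type} [Fintype ι] [DecidableEq ι] (d : ι → ℕ) (j0 : ι) (h2 : 2 ≤ d j0)

/-- first special variable -/
def w1 : Σ j, Fin (d j) := ⟨j0, ⟨0, by omega⟩⟩

/-- second special variable -/
def w2 : Σ j, Fin (d j) := ⟨j0, ⟨1, by omega⟩⟩

/-- factors vanishing on the conic -/
noncomputable def A (v : Σ j, Fin (d j)) : MvPolynomial (Option (Σ j, Fin (d j))) ℂ :=
  if v = w1 d j0 h2 then (X none + X (some (w1 d j0 h2))) * (X none + X (some (w2 d j0 h2))) -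
    X none ^ 2
  else if v = w2 d j0 h2 then 0 else X (some v)

/-- cofactors -/
noncomputable def M (v : Σ j, Fin (d j)) : MvPolynomial (Option (Σ j, Fin (d j))) ℂ :=
  if v = w1 d j0 h2 then (X none + X (some (w2 d j0 h2))) ^ (d v.1 - 2)
  else (X none + X (some (w1 d j0 h2))) ^ (v.2 : ℕ) *
    (X none + X (some (w2 d j0 h2))) ^ (d v.1 - 1 - (v.2 : ℕ))

/-- the system -/
noncomputable def F0 (j : ι) : MvPolynomial (Option (Σ j, Fin (d j))) ℂ :=
  ∑ k : Fin (d j), A d j0 h2 ⟨j, k⟩ * M d j0 h2 ⟨j, k⟩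

theorem F0_hom (j : ι) : (F0 d j0 h2 j).IsHomogeneous (d j) := by
  have hX : ∀ v, (X v : MvPolynomial (Option (Σ j, Fin (d j))) ℂ).IsHomogeneous 1 :=
    fun v => isHomogeneous_X _ _
  have hXX : ∀ v w, (X v + X w : MvPolynomial (Option (Σ j, Fin (d j))) ℂ).IsHomogeneous 1 :=
    fun v w => (hX v).add (hX w)
  unfold F0
  apply IsHomogeneous.sum
  intro k _
  by_cases h1 : (⟨j, k⟩ : Σ j, Fin (d j)) = w1 d j0 h2
  · rw [A, M, if_pos h1, if_pos h1]
    have hj : j = j0 := congrArg Sigma.fst h1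
    have e1 : ((X none + X (some (w1 d j0 h2))) * (X none + X (some (w2 d j0 h2))) -
      X none ^ 2 : MvPolynomial (Option (Σ j, Fin (d j))) ℂ).IsHomogeneous 2 := by
      have a1 := (hXX none (some (w1 d j0 h2))).mul (hXX none (some (w2 d j0 h2)))
      have a2 := (hX none).pow 2
      exact a1.sub a2
    have e2 := (hXX none (some (w2 d j0 h2))).pow (d j - 2)
    have e3 := e1.mul e2
    have e4 : 2 + 1 * (d j - 2) = d j := by
      rw [hj]; omega
    rw [e4] at e3
    exact e3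
  · rw [M, if_neg h1]
    have e2 := ((hXX none (some (w1 d j0 h2))).pow (k : ℕ)).mul
      ((hXX none (some (w2 d j0 h2))).pow (d j - 1 - (k : ℕ)))
    rw [A, if_neg h1]
    split_ifs with h3
    · rw [zero_mul]
      exact isHomogeneous_zero _ _ _
    · have e3 := (hX (some ⟨j, k⟩)).mul e2
      have e4 : 1 + (1 * (k : ℕ) + 1 * (d j - 1 - (k : ℕ))) = d j := by
        have := k.2
        omega
      rw [e4] at e3
      exact e3

/-- data of the conic -/
noncomputable def a0 (v : Σ j, Fin (d j)) : ℂ :=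
  if v = w1 d j0 h2 then 1 else if v = w2 d j0 h2 then -1 else 0

/-- data of the conic -/
noncomputable def b0 (v : Σ j, Fin (d j)) : ℂ := if v = w1 d j0 h2 then 1 else 0

theorem w12 : w1 d j0 h2 ≠ w2 d j0 h2 := by
  intro h
  have := congrArg (fun v : Σ j, Fin (d j) => (v.2 : ℕ)) h
  simp [w1, w2] at this

theorem cpt0_w1 (τ : ℂ) : cpt (a0 d j0 h2) (b0 d j0 h2) 1 τ (some (w1 d j0 h2)) = τ * (1 + τ) := by
  simp [cpt, a0, b0]

theorem cpt0_w2 (τ : ℂ) : cpt (a0 d j0 h2) (b0 d j0 h2) 1 τ (some (w2 d j0 h2)) = -τ := by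
  simp [cpt, a0, b0, (w12 d j0 h2).symm]

theorem cpt0_other (τ : ℂ) (v : Σ j, Fin (d j)) (h1 : v ≠ w1 d j0 h2) (h3 : v ≠ w2 d j0 h2) :
    cpt (a0 d j0 h2) (b0 d j0 h2) 1 τ (some v) = 0 := by
  simp [cpt, a0, b0, h1, h3]

theorem A_zero (τ : ℂ) (v : Σ j, Fin (d j)) :
    eval (cpt (a0 d j0 h2) (b0 d j0 h2) 1 τ) (A d j0 h2 v) = 0 := by
  unfold A
  split_ifs with h1 h3
  · simp only [map_sub, map_mul, map_add, eval_X, map_pow, cpt0_w1, cpt0_w2]
    simp only [cpt]
    ring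
  · simp
  · rw [eval_X]
    exact cpt0_other d j0 h2 τ v h1 h3

theorem M_val (τ : ℂ) (v : Σ j, Fin (d j)) :
    eval (cpt (a0 d j0 h2) (b0 d j0 h2) 1 τ) (M d j0 h2 v) = (1 + τ) ^ (2 * (v.2 : ℕ)) := by
  have e1 : cpt (a0 d j0 h2) (b0 d j0 h2) 1 τ none = 1 + τ := by simp [cpt]
  unfold M
  split_ifs with h1
  · have e2 : (v.2 : ℕ) = 0 := by rw [h1]; rfl
    simp only [map_mul, map_add, eval_X, map_pow, cpt0_w2, e1, e2]
    simp
  · simp only [map_mul, map_add, eval_X, map_pow, cpt0_w1, cpt0_w2, e1]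
    rw [show (1 + τ + τ * (1 + τ) : ℂ) = (1 + τ) ^ 2 by ring, show (1 + τ + -τ : ℂ) = 1 by ring,
      one_pow, mul_one, ← pow_mul]

theorem F0_zero (τ : ℂ) (j : ι) :
    eval (cpt (a0 d j0 h2) (b0 d j0 h2) 1 τ) (F0 d j0 h2 j) = 0 := by
  unfold F0
  rw [map_sum]
  apply Finset.sum_eq_zero
  intro k _
  rw [map_mul, A_zero, zero_mul]

theorem F0_bpt (j : ι) : eval bpt (F0 d j0 h2 j) = 0 := by
  rw [← F0_zero d j0 h2 0 j]
  congr 1
  congr 1
  funext i
  cases i <;> simp [cpt, bpt]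

theorem F0_deriv (τ : ℂ) (ξ : Option (Σ j, Fin (d j)) → ℂ) (hξ : ξ none = 0) (j : ι) :
    HasDerivAt (fun s : ℂ => eval (fun i => cpt (a0 d j0 h2) (b0 d j0 h2) 1 τ i + s * ξ i)
      (F0 d j0 h2 j)) (∑ k : Fin (d j), ξ (some ⟨j, k⟩) * (1 + τ) ^ (2 * (k : ℕ))) 0 := by
  have hXd : ∀ i, HasDerivAt (fun s : ℂ => cpt (a0 d j0 h2) (b0 d j0 h2) 1 τ i + s * ξ i) (ξ i) 0 := by
    intro i
    have := ((hasDerivAt_id (0 : ℂ)).mul_const (ξ i)).const_add
      (cpt (a0 d j0 h2) (b0 d j0 h2) 1 τ i)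
    simpa using this
  set P : ℂ → Option (Σ j, Fin (d j)) → ℂ :=
    fun s i => cpt (a0 d j0 h2) (b0 d j0 h2) 1 τ i + s * ξ i with hP
  have hP0 : P 0 = cpt (a0 d j0 h2) (b0 d j0 h2) 1 τ := by
    funext i
    simp [hP]
  have hM : ∀ v, DifferentiableAt ℂ (fun s : ℂ => eval (P s) (M d j0 h2 v)) 0 := by
    intro v
    unfold M
    have hd : ∀ i, DifferentiableAt ℂ (fun s => P s i) 0 := fun i => (hXd i).differentiableAt
    split_ifs with h1
    · simp only [map_mul, map_add, eval_X, map_pow]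
      fun_prop
    · simp only [map_mul, map_add, eval_X, map_pow]
      fun_prop
  have hA : ∀ v, HasDerivAt (fun s : ℂ => eval (P s) (A d j0 h2 v))
      (ξ (some v) + (if v = w1 d j0 h2 then (1 + τ) ^ 2 * ξ (some (w2 d j0 h2)) else 0)
        - (if v = w2 d j0 h2 then ξ (some (w2 d j0 h2)) else 0)) 0 := by
    intro v
    unfold A
    split_ifs with h1 h3 h3
    · exact absurd (h1.symm.trans h3) (w12 d j0 h2)
    · simp only [map_sub, map_mul, map_add, eval_X, map_pow]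
      have e1 := (((hXd none).add (hXd (some (w1 d j0 h2)))).mul
        ((hXd none).add (hXd (some (w2 d j0 h2))))).sub ((hXd none).pow 2)
      refine e1.congr_deriv ?_
      simp only [Pi.add_apply, zero_mul, add_zero, hξ, cpt0_w1, cpt0_w2, h1]
      simp only [cpt]
      ring
    · rw [h3]
      simp only [map_zero]
      refine (hasDerivAt_const (0 : ℂ) (0 : ℂ)).congr_deriv ?_
      ring
    · simp only [eval_X]
      refine (hXd (some v)).congr_deriv ?_
      ring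
  have hsum : HasDerivAt (fun s : ℂ => eval (P s) (F0 d j0 h2 j))
      (∑ k : Fin (d j), (ξ (some ⟨j, k⟩) + (if (⟨j, k⟩ : Σ j, Fin (d j)) = w1 d j0 h2 then
        (1 + τ) ^ 2 * ξ (some (w2 d j0 h2)) else 0)
        - (if (⟨j, k⟩ : Σ j, Fin (d j)) = w2 d j0 h2 then ξ (some (w2 d j0 h2)) else 0)) *
          (1 + τ) ^ (2 * (k : ℕ))) 0 := by
    unfold F0
    simp only [map_sum, map_mul]
    apply HasDerivAt.fun_sum
    intro k _
    have e1 := (hA ⟨j, k⟩).mul (hM ⟨j, k⟩).hasDerivAt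
    refine e1.congr_deriv ?_
    rw [hP0, M_val, A_zero, zero_mul, add_zero]
  refine hsum.congr_deriv ?_
  have e2 : ∀ k : Fin (d j), (ξ (some ⟨j, k⟩) + (if (⟨j, k⟩ : Σ j, Fin (d j)) = w1 d j0 h2 then
        (1 + τ) ^ 2 * ξ (some (w2 d j0 h2)) else 0)
        - (if (⟨j, k⟩ : Σ j, Fin (d j)) = w2 d j0 h2 then ξ (some (w2 d j0 h2)) else 0)) *
          (1 + τ) ^ (2 * (k : ℕ)) = ξ (some ⟨j, k⟩) * (1 + τ) ^ (2 * (k : ℕ)) +
          ((if (⟨j, k⟩ : Σ j, Fin (d j)) = w1 d j0 h2 then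
            (1 + τ) ^ 2 * ξ (some (w2 d j0 h2)) else 0) -
          (if (⟨j, k⟩ : Σ j, Fin (d j)) = w2 d j0 h2 then
            (1 + τ) ^ 2 * ξ (some (w2 d j0 h2)) else 0)) := by
    intro k
    by_cases h1 : (⟨j, k⟩ : Σ j, Fin (d j)) = w1 d j0 h2
    · have h3 : (⟨j, k⟩ : Σ j, Fin (d j)) ≠ w2 d j0 h2 := fun h => w12 d j0 h2 (h1.symm.trans h)
      have e3 : (k : ℕ) = 0 := congrArg (fun v : Σ j, Fin (d j) => (v.2 : ℕ)) h1
      simp only [if_pos h1, if_neg h3, e3]
      ring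
    · by_cases h3 : (⟨j, k⟩ : Σ j, Fin (d j)) = w2 d j0 h2
      · have e3 : (k : ℕ) = 1 := congrArg (fun v : Σ j, Fin (d j) => (v.2 : ℕ)) h3
        simp only [if_neg h1, if_pos h3, e3]
        rw [h3]
        ring
      · simp only [if_neg h1, if_neg h3]
        ring
  rw [Finset.sum_congr rfl fun k _ => e2 k, Finset.sum_add_distrib]
  rw [show ∑ k : Fin (d j), ((if (⟨j, k⟩ : Σ j, Fin (d j)) = w1 d j0 h2 then
            (1 + τ) ^ 2 * ξ (some (w2 d j0 h2)) else 0) -
          (if (⟨j, k⟩ : Σ j, Fin (d j)) = w2 d j0 h2 then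
            (1 + τ) ^ 2 * ξ (some (w2 d j0 h2)) else 0)) = 0 from ?_, add_zero]
  rw [Finset.sum_sub_distrib]
  by_cases hj : j = j0
  · subst hj
    have e4 : ∀ k : Fin (d j), ((⟨j, k⟩ : Σ j, Fin (d j)) = w1 d j h2) ↔ k = ⟨0, by omega⟩ := by
      intro k
      unfold w1
      simp
    have e5 : ∀ k : Fin (d j), ((⟨j, k⟩ : Σ j, Fin (d j)) = w2 d j h2) ↔ k = ⟨1, by omega⟩ := by
      intro k
      unfold w2
      simp
    simp only [e4, e5, Finset.sum_ite_eq', Finset.mem_univ, if_true, sub_self]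
  · have e4 : ∀ k : Fin (d j), ¬ ((⟨j, k⟩ : Σ j, Fin (d j)) = w1 d j0 h2) := by
      intro k h
      exact hj (congrArg Sigma.fst h)
    have e5 : ∀ k : Fin (d j), ¬ ((⟨j, k⟩ : Σ j, Fin (d j)) = w2 d j0 h2) := by
      intro k h
      exact hj (congrArg Sigma.fst h)
    simp [e4, e5]

/-- the evaluation map of the pencil -/
noncomputable def Phi (F : ι → MvPolynomial (Option (Σ j, Fin (d j))) ℂ)
    (p : ℂ × ((Σ j, Fin (d j)) → ℂ) × ((Σ j, Fin (d j)) → ℂ)) :
    ℂ × ((Σ j, Fin (2 * d j)) → ℂ) :=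
  (p.1, fun x => (1 - p.1) * eval (cpt p.2.1 p.2.2 1 (((x.2 : ℕ) + 1 : ℕ) : ℂ)) (F x.1) +
    p.1 * eval (cpt p.2.1 p.2.2 1 (((x.2 : ℕ) + 1 : ℕ) : ℂ)) (F0 d j0 h2 x.1))

omit [Fintype ι] [DecidableEq ι] in
theorem contDiff_eval {E : Type} [NormedAddCommGroup E] [NormedSpace ℂ E] {σ : Type} [Fintype σ]
    (g : E → σ → ℂ) (hg : ∀ i, ContDiff ℂ 1 (fun e => g e i)) (P : MvPolynomial σ ℂ) :
    ContDiff ℂ 1 (fun e => eval (g e) P) := by
  have : (fun e => eval (g e) P) = fun e => ∑ α ∈ P.support, P.coeff α * ∏ j, g e j ^ α j := by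
    funext z
    rw [eval_eq']
  rw [this]
  apply ContDiff.sum
  intro α _
  apply ContDiff.mul contDiff_const
  apply contDiff_prod
  intro j _
  exact (hg j).pow _

theorem Phi_contDiff (F : ι → MvPolynomial (Option (Σ j, Fin (d j))) ℂ) :
    ContDiff ℂ 1 (Phi d j0 h2 F) := by
  have hc : ∀ (τ : ℂ) (i : Option (Σ j, Fin (d j))), ContDiff ℂ 1
      (fun p : ℂ × ((Σ j, Fin (d j)) → ℂ) × ((Σ j, Fin (d j)) → ℂ) => cpt p.2.1 p.2.2 1 τ i) := by
    intro τ i
    cases i with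
    | none =>
      simp only [cpt]
      exact contDiff_const
    | some v =>
      simp only [cpt]
      fun_prop
  unfold Phi
  apply ContDiff.prodMk contDiff_fst
  rw [contDiff_pi]
  intro x
  apply ContDiff.add
  · exact (contDiff_const.sub contDiff_fst).mul (contDiff_eval _ (hc _) _)
  · exact contDiff_fst.mul (contDiff_eval _ (hc _) _)

theorem Phi_inj (F : ι → MvPolynomial (Option (Σ j, Fin (d j))) ℂ) :
    Function.Injective (fderiv ℂ (Phi d j0 h2 F) (1, a0 d j0 h2, b0 d j0 h2)) := by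
  rw [injective_iff_map_eq_zero]
  rintro ⟨δ, x, y⟩ hz
  have hd : DifferentiableAt ℂ (Phi d j0 h2 F) (1, a0 d j0 h2, b0 d j0 h2) :=
    (Phi_contDiff d j0 h2 F).differentiable one_ne_zero _
  have hδ : δ = 0 := by
    have h1 := hd.hasFDerivAt.fst
    have h2' : HasFDerivAt (fun p => (Phi d j0 h2 F p).1)
      (ContinuousLinearMap.fst ℂ ℂ (((Σ j, Fin (d j)) → ℂ) × ((Σ j, Fin (d j)) → ℂ)))
        (1, a0 d j0 h2, b0 d j0 h2) := hasFDerivAt_fst
    have h3 := congrArg (fun L => L (δ, x, y)) (h1.unique h2')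
    simp only [ContinuousLinearMap.comp_apply, ContinuousLinearMap.coe_fst'] at h3
    rw [hz] at h3
    exact h3.symm
  subst hδ
  -- the derivative in the direction `(x, y)`
  have hline : ∀ (j : ι) (m : Fin (2 * d j)),
      ∑ k : Fin (d j), ((((m : ℕ) + 1 : ℕ) : ℂ) * (x ⟨j, k⟩ + y ⟨j, k⟩ * (((m : ℕ) + 1 : ℕ) : ℂ))) *
        (1 + (((m : ℕ) + 1 : ℕ) : ℂ)) ^ (2 * (k : ℕ)) = 0 := by
    intro j m
    set τ : ℂ := (((m : ℕ) + 1 : ℕ) : ℂ) with hτ
    have hl : HasDerivAt (fun s : ℂ => ((1, a0 d j0 h2, b0 d j0 h2) : ℂ × ((Σ j, Fin (d j)) → ℂ) ×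
        ((Σ j, Fin (d j)) → ℂ)) + s • (0, x, y)) (0, x, y) 0 := by
      have := ((hasDerivAt_id (0 : ℂ)).smul_const ((0, x, y) : ℂ × ((Σ j, Fin (d j)) → ℂ) ×
        ((Σ j, Fin (d j)) → ℂ))).const_add ((1, a0 d j0 h2, b0 d j0 h2))
      simpa using this
    have h1 := HasFDerivAt.comp_hasDerivAt (0 : ℂ) (f := fun s : ℂ => ((1, a0 d j0 h2, b0 d j0 h2) :
        ℂ × ((Σ j, Fin (d j)) → ℂ) × ((Σ j, Fin (d j)) → ℂ)) + s • (0, x, y))
        (l := Phi d j0 h2 F) (by simpa using hd.hasFDerivAt) hl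
    rw [hz] at h1
    have h3 := hasDerivAt_pi.mp h1.snd ⟨j, m⟩
    have h4 := F0_deriv d j0 h2 τ (fun i => match i with
      | none => 0
      | some v => τ * (x v + y v * τ)) rfl j
    have h5 : (fun s : ℂ => ((Phi d j0 h2 F ∘ fun s : ℂ => ((1, a0 d j0 h2, b0 d j0 h2) :
        ℂ × ((Σ j, Fin (d j)) → ℂ) × ((Σ j, Fin (d j)) → ℂ)) + s • (0, x, y)) s).2 ⟨j, m⟩) =
        fun s : ℂ => eval (fun i => cpt (a0 d j0 h2) (b0 d j0 h2) 1 τ i + s * (match i with
          | none => 0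
          | some v => τ * (x v + y v * τ))) (F0 d j0 h2 j) := by
      funext s
      simp only [Function.comp_apply, Phi, Prod.fst_add, Prod.smul_fst, smul_zero, add_zero,
        sub_self, zero_mul, zero_add, one_mul, Prod.snd_add, Prod.smul_snd]
      congr 1
      congr 1
      funext i
      cases i with
      | none =>
        simp only [cpt, ← hτ]
        ring
      | some v =>
        simp only [cpt, Pi.add_apply, Pi.smul_apply, smul_eq_mul, ← hτ]
        ring
    rw [h5] at h3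
    exact h4.unique h3
  have hpoly : ∀ j, ∑ k : Fin (d j), (Polynomial.C (x ⟨j, k⟩ - y ⟨j, k⟩) *
      Polynomial.X ^ (2 * (k : ℕ)) + Polynomial.C (y ⟨j, k⟩) * Polynomial.X ^ (2 * (k : ℕ) + 1))
        = (0 : Polynomial ℂ) := by
    intro j
    rcases Nat.eq_zero_or_pos (d j) with h0 | h0
    · apply Finset.sum_eq_zero
      intro k _
      exact absurd k.2 (by omega)
    apply Polynomial.eq_zero_of_natDegree_lt_card_of_eval_eq_zero (f := fun m : Fin (2 * d j) =>
      (1 + (((m : ℕ) + 1 : ℕ) : ℂ)))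
    · intro m m' h
      have h1 : (((m : ℕ) + 1 : ℕ) : ℂ) = (((m' : ℕ) + 1 : ℕ) : ℂ) := by
        have h' : (1 + (((m : ℕ) + 1 : ℕ) : ℂ)) = (1 + (((m' : ℕ) + 1 : ℕ) : ℂ)) := h
        exact add_left_cancel h'
      have h2' : (m : ℕ) + 1 = (m' : ℕ) + 1 := Nat.cast_injective h1
      exact Fin.ext (by omega)
    · intro m
      have h1 := hline j m
      rw [Polynomial.eval_finsetSum]
      have hne : ((((m : ℕ) + 1 : ℕ) : ℂ)) ≠ 0 := Nat.cast_ne_zero.mpr (by omega)
      apply mul_left_cancel₀ hne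
      rw [mul_zero, ← h1, Finset.mul_sum]
      refine Finset.sum_congr rfl fun k _ => ?_
      simp only [Polynomial.eval_add, Polynomial.eval_mul, Polynomial.eval_C, Polynomial.eval_pow,
        Polynomial.eval_X]
      ring
    · rw [Fintype.card_fin]
      refine lt_of_le_of_lt (Polynomial.natDegree_sum_le_of_forall_le
        (n := 2 * d j - 1) _ _ ?_) (by omega)
      intro k _
      have hk := k.2
      refine (Polynomial.natDegree_add_le _ _).trans (max_le ?_ ?_)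
      · refine (Polynomial.natDegree_C_mul_X_pow_le _ _).trans ?_
        omega
      · refine (Polynomial.natDegree_C_mul_X_pow_le _ _).trans ?_
        omega
  have hy : y = 0 := by
    funext v
    obtain ⟨j, k⟩ := v
    have h1 := congrArg (fun p => Polynomial.coeff p (2 * (k : ℕ) + 1)) (hpoly j)
    simp only [Polynomial.finsetSum_coeff, Polynomial.coeff_add, Polynomial.coeff_C_mul,
      Polynomial.coeff_X_pow, Polynomial.coeff_zero] at h1
    rw [Finset.sum_eq_single k] at h1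
    · rw [if_neg (by omega), if_pos rfl] at h1
      simpa using h1
    · intro k' _ hk'
      have : (k' : ℕ) ≠ k := fun h => hk' (Fin.ext h)
      rw [if_neg (by omega), if_neg (by omega)]
      simp
    · simp
  have hx : x = 0 := by
    funext v
    obtain ⟨j, k⟩ := v
    have h1 := congrArg (fun p => Polynomial.coeff p (2 * (k : ℕ))) (hpoly j)
    simp only [Polynomial.finsetSum_coeff, Polynomial.coeff_add, Polynomial.coeff_C_mul,
      Polynomial.coeff_X_pow, Polynomial.coeff_zero, hy] at h1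
    rw [Finset.sum_eq_single k] at h1
    · rw [if_pos rfl] at h1
      simpa using h1
    · intro k' _ hk'
      have : (k' : ℕ) ≠ k := fun h => hk' (Fin.ext h)
      rw [if_neg (by omega)]
      simp
    · simp
  rw [hx, hy]
  rfl

include h2 in
/-- every system with these degrees has a conic or a line through the base point -/
theorem sol_all (F : ι → MvPolynomial (Option (Σ j, Fin (d j))) ℂ)
    (hF : ∀ j, (F j).IsHomogeneous (d j)) (h0 : ∀ j, eval bpt (F j) = 0) : Sol F := by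
  classical
  set c0 : ℂ × ((Σ j, Fin (d j)) → ℂ) × ((Σ j, Fin (d j)) → ℂ) := (1, a0 d j0 h2, b0 d j0 h2)
    with hc0
  have hs : HasStrictFDerivAt (Phi d j0 h2 F) (fderiv ℂ (Phi d j0 h2 F) c0) c0 :=
    (Phi_contDiff d j0 h2 F).contDiffAt.hasStrictFDerivAt one_ne_zero
  have hfin : Module.finrank ℂ (ℂ × ((Σ j, Fin (d j)) → ℂ) × ((Σ j, Fin (d j)) → ℂ)) =
      Module.finrank ℂ (ℂ × ((Σ j, Fin (2 * d j)) → ℂ)) := by
    simp only [Module.finrank_prod, Module.finrank_self, Module.finrank_fintype_fun_eq_card,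
      Fintype.card_sigma, Fintype.card_fin, ← Finset.mul_sum]
    omega
  have hsurj : (fderiv ℂ (Phi d j0 h2 F) c0).range = ⊤ := by
    apply LinearMap.range_eq_top.mpr
    exact (LinearMap.injective_iff_surjective_of_finrank_eq_finrank hfin).mp (Phi_inj d j0 h2 F)
  have hnhds := hs.map_nhds_eq_of_surj hsurj
  have hP0 : Phi d j0 h2 F c0 = (1, 0) := by
    simp only [hc0, Phi, sub_self, zero_mul, zero_add, one_mul]
    congr 1
    funext x
    exact F0_zero d j0 h2 _ _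
  rw [hP0] at hnhds
  have hU : {p : ℂ × ((Σ j, Fin (d j)) → ℂ) × ((Σ j, Fin (d j)) → ℂ) |
      p.2.2 (w1 d j0 h2) ≠ 0} ∈ nhds c0 := by
    apply IsOpen.mem_nhds
    · apply isOpen_ne_fun
      · fun_prop
      · fun_prop
    · change b0 d j0 h2 (w1 d j0 h2) ≠ 0
      simp [b0]
  have hV : Phi d j0 h2 F '' {p | p.2.2 (w1 d j0 h2) ≠ 0} ∈
      nhds ((1, 0) : ℂ × ((Σ j, Fin (2 * d j)) → ℂ)) := by
    rw [← hnhds]
    exact Filter.image_mem_map hU
  have hlim : Filter.Tendsto (fun n : ℕ => ((1 + 1 / ((n : ℂ) + 1), 0) :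
      ℂ × ((Σ j, Fin (2 * d j)) → ℂ))) Filter.atTop (nhds (1, 0)) := by
    apply Filter.Tendsto.prodMk_nhds _ tendsto_const_nhds
    have := tendsto_one_div_add_atTop_nhds_zero_nat (𝕜 := ℂ)
    simpa using this.const_add 1
  obtain ⟨n0, hn0⟩ := Filter.eventually_atTop.mp (hlim.eventually hV)
  have hex : ∀ n : ℕ, ∃ p : ℂ × ((Σ j, Fin (d j)) → ℂ) × ((Σ j, Fin (d j)) → ℂ),
      p.2.2 (w1 d j0 h2) ≠ 0 ∧ Phi d j0 h2 F p = (1 + 1 / (((n0 + n : ℕ) : ℂ) + 1), 0) := by
    intro n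
    obtain ⟨p, hp, hp2⟩ := hn0 (n0 + n) (Nat.le_add_right _ _)
    exact ⟨p, hp, hp2⟩
  choose p hp1 hp2 using hex
  have hlam : ∀ n, (p n).1 = 1 + 1 / (((n0 + n : ℕ) : ℂ) + 1) := fun n =>
    congrArg Prod.fst (hp2 n)
  have hsq : ∀ (n : ℕ) (v : Σ j, Fin (d j)), ∃ g : ℂ, g ^ 2 = (p n).2.2 v := fun n v =>
    IsAlgClosed.exists_pow_nat_eq _ two_pos
  choose γ hγ using hsq
  refine sol_of_seq F (F0 d j0 h2) d hF (F0_hom d j0 h2) h0 (F0_bpt d j0 h2)
    (fun n => (p n).1) ?_ (fun n => (p n).2.1) γ (w1 d j0 h2) ?_ ?_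
  · intro n m hnm
    simp only [hlam] at hnm
    have h1 := add_left_cancel hnm
    rw [one_div, one_div, inv_inj] at h1
    have h3 : ((n0 + n : ℕ) : ℂ) = ((n0 + m : ℕ) : ℂ) := add_right_cancel h1
    have h4 : n0 + n = n0 + m := Nat.cast_injective h3
    omega
  · intro n hz
    apply hp1 n
    rw [← hγ n, hz]
    ring
  · intro n j m
    have hG : ((C (1 - (p n).1) * F j + C (p n).1 * F0 d j0 h2 j) :
        MvPolynomial (Option (Σ j, Fin (d j))) ℂ).IsHomogeneous (d j) := by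
      have e1 := (isHomogeneous_C (Option (Σ j, Fin (d j))) (1 - (p n).1)).mul (hF j)
      have e2 := (isHomogeneous_C (Option (Σ j, Fin (d j))) (p n).1).mul (F0_hom d j0 h2 j)
      rw [zero_add] at e1 e2
      exact e1.add e2
    have h5 := all_of_many (p n).2.1 (p n).2.2 hG (by
      intro m hm
      rcases Nat.eq_zero_or_pos m with rfl | hm0
      · have e3 : cpt (p n).2.1 (p n).2.2 1 ((0 : ℕ) : ℂ) = bpt := by
          funext i
          cases i <;> simp [cpt, bpt]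
        rw [e3]
        simp only [map_add, map_mul, eval_C]
        rw [h0 j, F0_bpt d j0 h2 j]
        ring
      · have h6 := congrFun (congrArg Prod.snd (hp2 n)) (⟨j, ⟨m - 1, by omega⟩⟩ :
          Σ j, Fin (2 * d j))
        simp only [Phi, Pi.zero_apply] at h6
        rw [show m - 1 + 1 = m by omega] at h6
        simp only [map_add, map_mul, eval_C]
        exact h6) m
    simp only [map_add, map_mul, eval_C] at h5
    have e7 : (fun i => γ n i ^ 2) = (p n).2.2 := funext fun v => hγ n v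
    rw [e7]
    exact h5

end example_system

end Pool.Agent.W235.BLV
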