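import Pool.Agent.W235.BLV.Inv

/-!
Through every point of the complement of a hypersurface in a projective variety of nonpositive log
canonical degree there is a rational curve with at most two punctures.
-/

set_option autoImplicit false
set_option linter.unusedSectionVars false

namespace Pool.Agent.W235.BLV

open MvPolynomial

theorem eval_bind' {k : Type*} [CommRing k] {σ τ : Type*} (y : τ → k)
    (g : σ → MvPolynomial τ k) (P : MvPolynomial σ k) :
    eval y (bind₁ g P) = eval (fun i => eval y (g i)) P := by
  rw [← coe_aeval_eq_eval, ← coe_aeval_eq_eval, RingHom.coe_coe, aeval_bind₁]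
  rfl

theorem natDegree_line_le {k : Type*} [CommRing k] {σ : Type*} (g : σ → Polynomial k)
    (hg : ∀ i, (g i).natDegree ≤ 1) {F : MvPolynomial σ k} {d : ℕ} (hF : F.IsHomogeneous d) :
    (eval₂ Polynomial.C g F).natDegree ≤ d := by
  classical
  rw [eval₂_eq]
  apply Polynomial.natDegree_sum_le_of_forall_le
  intro α hα
  have h1 : ∑ i ∈ α.support, α i = d := by
    have := hF (mem_support_iff.mp hα)
    rw [← this]
    simp [Finsupp.weight_apply, Finsupp.sum]
  refine (Polynomial.natDegree_C_mul_le _ _).trans ?_
  refine (Polynomial.natDegree_prod_le _ _).trans ?_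
  rw [← h1]
  apply Finset.sum_le_sum
  intro i _
  refine Polynomial.natDegree_pow_le.trans ?_
  calc α i * (g i).natDegree ≤ α i * 1 := Nat.mul_le_mul_left _ (hg i)
    _ = α i := mul_one _

/-- restriction of a polynomial to a line -/
noncomputable def lpoly {σ : Type*} (p v : σ → ℂ) (F : MvPolynomial σ ℂ) : Polynomial ℂ :=
  eval₂ Polynomial.C (fun i => Polynomial.C (p i) + Polynomial.C (v i) * Polynomial.X) F

theorem eval_lpoly {σ : Type*} (p v : σ → ℂ) (F : MvPolynomial σ ℂ) (τ : ℂ) :
    (lpoly p v F).eval τ = eval (fun i => p i + τ * v i) F := by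
  unfold lpoly
  rw [← Polynomial.coe_evalRingHom, hom_eval₂]
  have h1 : (Polynomial.evalRingHom τ).comp (Polynomial.C : ℂ →+* Polynomial ℂ) = RingHom.id ℂ := by
    ext x
    simp
  rw [h1, eval₂_id]
  congr 1
  congr 1
  funext i
  simp
  ring

theorem natDegree_lpoly_le {σ : Type*} (p v : σ → ℂ) {F : MvPolynomial σ ℂ} {d : ℕ}
    (hF : F.IsHomogeneous d) : (lpoly p v F).natDegree ≤ d := by
  apply natDegree_line_le _ _ hF
  intro i
  compute_degree

theorem poly_zero (P : Polynomial ℂ) (d : ℕ) (hd : P.natDegree ≤ d)
    (h : ∀ m : ℕ, m ≤ d → P.eval (m : ℂ) = 0) : P = 0 := by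
  apply Polynomial.eq_zero_of_natDegree_lt_card_of_eval_eq_zero (f := fun i : Fin (d + 1) =>
      ((i : ℕ) : ℂ))
  · intro i j hij
    exact Fin.ext (Nat.cast_injective hij)
  · intro i
    exact h i (Nat.le_of_lt_succ i.2)
  · rw [Fintype.card_fin]
    exact Nat.lt_succ_of_le hd

/-- a polynomial curve through `p` on which the forms `F j` vanish and `G` is a power of a linear
polynomial, and which is not a point of projective space -/
def HasCurve {N : ℕ} {ι : Type} (F : ι → MvPolynomial (Fin (N + 1)) ℂ)
    (G : MvPolynomial (Fin (N + 1)) ℂ) (p : Fin (N + 1) → ℂ) : Prop :=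
  ∃ (x : Fin (N + 1) → Polynomial ℂ) (b : ℂ) (k : ℕ), (∀ i, (x i).eval 0 = p i) ∧
    (∀ j τ, eval (fun i => (x i).eval τ) (F j) = 0) ∧
    (∀ τ, eval (fun i => (x i).eval τ) G = eval p G * (1 + b * τ) ^ k) ∧
    ∃ τ, ∀ c : ℂ, (fun i => (x i).eval τ) ≠ fun i => c * p i

section

variable {N : ℕ} {ι : Type} [Fintype ι] (d : ι → ℕ)
  (F : ι → MvPolynomial (Fin (N + 1)) ℂ) (hF : ∀ j, (F j).IsHomogeneous (d j))
  (p : Fin (N + 1) → ℂ) (hp : ∀ j, eval p (F j) = 0)

include hF hp in
/-- a line that has enough points in common with the zero set lies in it -/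
theorem line_mem (v : Fin (N + 1) → ℂ)
    (h : ∀ j (m : ℕ), 1 ≤ m → m ≤ d j → eval (fun i => p i + (m : ℂ) * v i) (F j) = 0) (j : ι) (τ : ℂ) :
    eval (fun i => p i + τ * v i) (F j) = 0 := by
  rw [← eval_lpoly, poly_zero (lpoly p v (F j)) (d j) (natDegree_lpoly_le _ _ (hF j)),
    Polynomial.eval_zero]
  intro m hm
  rw [eval_lpoly]
  rcases Nat.eq_zero_or_pos m with rfl | hm0
  · rw [← hp j]
    congr 1
    congr 1
    funext i
    simp
  · exact h j m hm0 hm

include hF hp in
/-- the case of a boundary of degree at least two -/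
theorem curve_of_two_le (e : ℕ) (he : 2 ≤ e) (G : MvPolynomial (Fin (N + 1)) ℂ)
    (hG : G.IsHomogeneous e) (hd : ∑ j, d j + e ≤ N + 1) (hGp : eval p G ≠ 0) :
    HasCurve F G p := by
  classical
  let sub : ℕ → Fin (N + 1) → MvPolynomial (Option (Fin (N + 1))) ℂ :=
    fun m i => C (p i) + C (m : ℂ) * X (some i)
  have hsub : ∀ (y : Option (Fin (N + 1)) → ℂ) (m : ℕ) (P : MvPolynomial (Fin (N + 1)) ℂ),
      eval y (bind₁ (sub m) P) = eval (fun i => p i + (m : ℂ) * y (some i)) P := by
    intro y m P
    rw [eval_bind']
    congr 1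
    congr 1
    funext i
    simp [sub]
  obtain ⟨y, hy0, hy⟩ := H952R2.Sextic.exists_common_zero (K := ℂ) (ι := Option (Fin (N + 1)))
    (κ := (Σ j, Fin (d j)) ⊕ Fin e) (by
      simp only [Fintype.card_sum, Fintype.card_sigma, Fintype.card_fin, Fintype.card_option]
      omega)
    (Sum.elim (fun x => bind₁ (sub ((x.2 : ℕ) + 1)) (F x.1))
      (fun l => bind₁ (sub ((l : ℕ) + 1)) G - C (eval p G) *
        (1 + X none * C (((l : ℕ) + 1 : ℕ) : ℂ)) ^ (e - 1))) (by
      rintro (x | l)
      · simp only [Sum.elim_inl]
        rw [hsub]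
        simpa using hp x.1
      · simp only [Sum.elim_inr, map_sub, map_mul, map_pow, map_add, map_one, eval_C, eval_X]
        rw [hsub]
        simp)
  set v : Fin (N + 1) → ℂ := fun i => y (some i) with hv
  set b : ℂ := y none with hb
  have hFv : ∀ j τ, eval (fun i => p i + τ * v i) (F j) = 0 := by
    apply line_mem d F hF p hp v
    intro j m h1 h2
    have h3 := hy (Sum.inl ⟨j, ⟨m - 1, by omega⟩⟩)
    simp only [Sum.elim_inl] at h3
    rw [hsub, show m - 1 + 1 = m by omega] at h3
    exact h3
  have hGv : ∀ τ, eval (fun i => p i + τ * v i) G = eval p G * (1 + b * τ) ^ (e - 1) := by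
    intro τ
    have h1 : lpoly p v G - Polynomial.C (eval p G) *
        (1 + Polynomial.C b * Polynomial.X) ^ (e - 1) = 0 := by
      apply poly_zero _ e
      · refine (Polynomial.natDegree_sub_le _ _).trans (max_le (natDegree_lpoly_le _ _ hG) ?_)
        refine (Polynomial.natDegree_C_mul_le _ _).trans ?_
        refine Polynomial.natDegree_pow_le.trans ?_
        have : (1 + Polynomial.C b * Polynomial.X : Polynomial ℂ).natDegree ≤ 1 := by
          compute_degree
        calc (e - 1) * (1 + Polynomial.C b * Polynomial.X : Polynomial ℂ).natDegree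
            ≤ (e - 1) * 1 := Nat.mul_le_mul_left _ this
          _ ≤ e := by omega
      · intro m hm
        rw [Polynomial.eval_sub, eval_lpoly]
        simp only [Polynomial.eval_mul, Polynomial.eval_C, Polynomial.eval_pow,
          Polynomial.eval_add, Polynomial.eval_one, Polynomial.eval_X]
        rcases Nat.eq_zero_or_pos m with rfl | hm0
        · simp
        · have h3 := hy (Sum.inr ⟨m - 1, by omega⟩)
          simp only [Sum.elim_inr, map_sub, map_mul, map_pow, map_add, map_one, eval_C,
            eval_X] at h3
          rw [hsub, show m - 1 + 1 = m by omega] at h3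
          exact h3
    have h2 := congrArg (Polynomial.eval τ) h1
    rw [Polynomial.eval_sub, eval_lpoly] at h2
    simp only [Polynomial.eval_mul, Polynomial.eval_C, Polynomial.eval_pow,
          Polynomial.eval_add, Polynomial.eval_one, Polynomial.eval_X, Polynomial.eval_zero] at h2
    exact sub_eq_zero.mp h2
  refine ⟨fun i => Polynomial.C (p i) + Polynomial.X * Polynomial.C (v i), b, e - 1, ?_, ?_, ?_,
    1, ?_⟩
  · intro i
    simp
  · intro j τ
    simp only [Polynomial.eval_add, Polynomial.eval_C, Polynomial.eval_mul, Polynomial.eval_X]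
    exact hFv j τ
  · intro τ
    simp only [Polynomial.eval_add, Polynomial.eval_C, Polynomial.eval_mul, Polynomial.eval_X]
    exact hGv τ
  · intro c hc
    -- `v` is a multiple of `p`
    have hvp : ∀ i, v i = (c - 1) * p i := by
      intro i
      have := congrFun hc i
      simp only [Polynomial.eval_add, Polynomial.eval_C, Polynomial.eval_mul,
        Polynomial.eval_X] at this
      linear_combination this
    have hpow : ∀ τ : ℂ, (1 + (c - 1) * τ) ^ e = (1 + b * τ) ^ (e - 1) := by
      intro τ
      have h1 := hGv τ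
      have h2 : (fun i => p i + τ * v i) = fun i => (1 + (c - 1) * τ) * p i := by
        funext i
        rw [hvp i]
        ring
      rw [h2, eval_smul_of_hom hG, mul_comm] at h1
      exact mul_left_cancel₀ hGp h1
    have hc1 : c - 1 = 0 := by
      by_contra hne
      have h1 := hpow (-(c - 1)⁻¹)
      have h2 : 1 + (c - 1) * -(c - 1)⁻¹ = 0 := by field_simp; ring
      rw [h2, zero_pow (by omega)] at h1
      have h3 : 1 + b * -(c - 1)⁻¹ = 0 := pow_eq_zero_iff (by omega) |>.mp h1.symm
      have h4 : b = c - 1 := by
        field_simp at h3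
        linear_combination -h3
      have h5 := hpow (c - 1)⁻¹
      rw [h4, mul_inv_cancel₀ hne] at h5
      have h6 : (1 + 1 : ℂ) ^ e = (1 + 1) ^ (e - 1) * 2 := by
        rw [show e = e - 1 + 1 by omega, pow_succ, Nat.add_sub_cancel]
        norm_num
      rw [h6] at h5
      have h7 : ((1 + 1 : ℂ)) ^ (e - 1) ≠ 0 := pow_ne_zero _ (by norm_num)
      have h8 : (2 : ℂ) = 1 := mul_left_cancel₀ h7 (by rw [h5, mul_one])
      norm_num at h8
    have hv0 : ∀ i, v i = 0 := fun i => by rw [hvp i, hc1, zero_mul]
    have hb0 : b = 0 := by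
      by_contra hne
      have h1 := hpow (-b⁻¹)
      have h2 : 1 + b * -b⁻¹ = 0 := by field_simp; ring
      rw [h2, zero_pow (by omega), hc1, zero_mul, add_zero, one_pow] at h1
      exact one_ne_zero h1
    apply hy0
    funext i
    cases i with
    | none => exact hb0
    | some i => exact hv0 i

/-- a linear form as a linear functional -/
theorem exists_lin (G : MvPolynomial (Fin (N + 1)) ℂ) (hG : G.IsHomogeneous 1) :
    ∃ L : (Fin (N + 1) → ℂ) →ₗ[ℂ] ℂ, ∀ x, L x = eval x G := by
  classical
  refine ⟨∑ i, (G.coeff (Finsupp.single i 1)) • LinearMap.proj i, fun x => ?_⟩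
  simp only [LinearMap.sum_apply, LinearMap.smul_apply, LinearMap.proj_apply, smul_eq_mul]
  rw [eval_eq']
  have h1 : ∀ α ∈ G.support, ∃ i, α = Finsupp.single i 1 := by
    intro α hα
    have h2 : α.sum (fun _ n => n) = 1 := by
      have h3 := hG (mem_support_iff.mp hα)
      simpa [Finsupp.weight_apply] using h3
    obtain ⟨a, ha⟩ := (Finsupp.sum_eq_one_iff _).mp h2
    exact ⟨a, ha⟩
  have h3 : ∑ α ∈ G.support, G.coeff α * ∏ i, x i ^ α i =
      ∑ α ∈ Finset.univ.image (fun i : Fin (N + 1) => (Finsupp.single i 1 : Fin (N + 1) →₀ ℕ)),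
        G.coeff α * ∏ i, x i ^ α i := by
    apply Finset.sum_subset
    · intro α hα
      obtain ⟨i, rfl⟩ := h1 α hα
      exact Finset.mem_image_of_mem _ (Finset.mem_univ i)
    · intro α _ hα
      rw [notMem_support_iff.mp hα, zero_mul]
  rw [h3, Finset.sum_image]
  · refine Finset.sum_congr rfl fun i _ => ?_
    congr 1
    rw [Finset.prod_eq_single i]
    · simp
    · intro j _ hj
      rw [Finsupp.single_eq_of_ne hj, pow_zero]
    · simp
  · intro i _ j _ h
    exact Finsupp.single_left_injective one_ne_zero h

include hF hp in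
/-- the case of a hyperplane section -/
theorem curve_of_one (G : MvPolynomial (Fin (N + 1)) ℂ)
    (hG : G.IsHomogeneous 1) (hd : ∑ j, d j + 1 ≤ N + 1) (hGp : eval p G ≠ 0) :
    HasCurve F G p ∨ ((∀ j, d j ≤ 1) ∧ ∑ j, d j = N ∧
      ∀ q, (∀ j, eval q (F j) = 0) → eval q G ≠ 0 → ∃ c : ℂ, q = fun i => c * p i) := by
  classical
  obtain ⟨L, hL⟩ := exists_lin G hG
  -- a line in the kernel of `G`
  have hline : ∀ v : Fin (N + 1) → ℂ, v ≠ 0 → L v = 0 →
      (∀ j (m : ℕ), 1 ≤ m → m ≤ d j → eval (fun i => p i + (m : ℂ) * v i) (F j) = 0) →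
      HasCurve F G p := by
    intro v hv0 hLv hv
    have hFv := line_mem d F hF p hp v hv
    refine ⟨fun i => Polynomial.C (p i) + Polynomial.X * Polynomial.C (v i), 0, 0, ?_, ?_, ?_,
      1, ?_⟩
    · intro i
      simp
    · intro j τ
      simp only [Polynomial.eval_add, Polynomial.eval_C, Polynomial.eval_mul, Polynomial.eval_X]
      exact hFv j τ
    · intro τ
      simp only [Polynomial.eval_add, Polynomial.eval_C, Polynomial.eval_mul, Polynomial.eval_X]
      have h1 : (fun i => p i + τ * v i) = p + τ • v := rfl
      rw [h1, ← hL, map_add, map_smul, hLv, hL]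
      simp
    · intro c hc
      simp only [Polynomial.eval_add, Polynomial.eval_C, Polynomial.eval_mul,
        Polynomial.eval_X, one_mul] at hc
      have h1 : v = (c - 1) • p := by
        funext i
        have := congrFun hc i
        simp only [Pi.smul_apply, smul_eq_mul]
        linear_combination this
      have h2 : (c - 1) * eval p G = 0 := by
        rw [← hL, ← smul_eq_mul, ← map_smul, ← h1, hLv]
      have h3 : c - 1 = 0 := (mul_eq_zero.mp h2).resolve_right hGp
      apply hv0
      rw [h1, h3, zero_smul]
  rcases Nat.lt_or_ge (∑ j, d j) N with hlt | hge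
  · -- enough slack
    left
    let sub : ℕ → Fin (N + 1) → MvPolynomial (Fin (N + 1)) ℂ :=
      fun m i => C (p i) + C (m : ℂ) * X i
    have hsub : ∀ (y : Fin (N + 1) → ℂ) (m : ℕ) (P : MvPolynomial (Fin (N + 1)) ℂ),
        eval y (bind₁ (sub m) P) = eval (fun i => p i + (m : ℂ) * y i) P := by
      intro y m P
      rw [eval_bind']
      congr 1
      congr 1
      funext i
      simp [sub]
    obtain ⟨v, hv0, hv⟩ := H952R2.Sextic.exists_common_zero (K := ℂ) (ι := Fin (N + 1))
      (κ := (Σ j, Fin (d j)) ⊕ Unit) (by
        simp only [Fintype.card_sum, Fintype.card_sigma, Fintype.card_fin, Fintype.card_unit]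
        omega)
      (Sum.elim (fun x => bind₁ (sub ((x.2 : ℕ) + 1)) (F x.1)) (fun _ => G)) (by
        rintro (x | l)
        · simp only [Sum.elim_inl]
          rw [hsub]
          simpa using hp x.1
        · simp only [Sum.elim_inr]
          rw [← hL, map_zero])
    refine hline v hv0 ?_ ?_
    · rw [hL]
      exact hv (Sum.inr ())
    · intro j m h1 h2
      have h3 := hv (Sum.inl ⟨j, ⟨m - 1, by omega⟩⟩)
      simp only [Sum.elim_inl] at h3
      rw [hsub, show m - 1 + 1 = m by omega] at h3
      exact h3
  · have hN : ∑ j, d j = N := by omega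
    by_cases hall : ∀ j, d j ≤ 1
    · -- all equations are linear
      by_cases hq : ∀ q, (∀ j, eval q (F j) = 0) → eval q G ≠ 0 → ∃ c : ℂ, q = fun i => c * p i
      · exact Or.inr ⟨hall, hN, hq⟩
      left
      push Not at hq
      obtain ⟨q, hqF, hqG, hqp⟩ := hq
      set c := eval p G / eval q G with hc
      have hc0 : c ≠ 0 := div_ne_zero hGp hqG
      refine hline (fun i => c * q i - p i) ?_ ?_ ?_
      · intro h
        apply hqp c⁻¹
        funext i
        have := congrFun h i
        simp only [Pi.zero_apply] at this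
        field_simp
        linear_combination this
      · have h1 : (fun i => c * q i - p i) = c • q - p := rfl
        rw [h1, map_sub, map_smul, hL, hL, hc, smul_eq_mul, div_mul_cancel₀ _ hqG, sub_self]
      · intro j m h1 h2
        have h3 : m = 1 := by
          have := hall j
          omega
        subst h3
        have h4 : (fun i => p i + ((1 : ℕ) : ℂ) * (c * q i - p i)) = fun i => c * q i := by
          funext i
          push_cast
          ring
        rw [h4, eval_smul_of_hom (hF j), hqF, mul_zero]
    · -- conics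
      left
      push Not at hall
      obtain ⟨j0, hj0⟩ := hall
      have hL0 : L ≠ 0 := by
        intro h
        apply hGp
        rw [← hL, h, LinearMap.zero_apply]
      have hker : Module.finrank ℂ (LinearMap.ker L) = N := by
        have h1 := Module.Dual.finrank_ker_add_one_of_ne_zero (f := L) hL0
        rw [Module.finrank_fintype_fun_eq_card, Fintype.card_fin] at h1
        omega
      let E : ((Σ j, Fin (d j)) → ℂ) ≃ₗ[ℂ] LinearMap.ker L := LinearEquiv.ofFinrankEq _ _ (by
        rw [hker, Module.finrank_fintype_fun_eq_card, Fintype.card_sigma]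
        simpa using hN)
      let T : Fin (N + 1) → MvPolynomial (Option (Σ j, Fin (d j))) ℂ := fun i =>
        C (p i) * X none + ∑ v, C (((E (Pi.single v 1) : LinearMap.ker L) : Fin (N + 1) → ℂ) i) *
          X (some v)
      have hT : ∀ (y : Option (Σ j, Fin (d j)) → ℂ) (P : MvPolynomial (Fin (N + 1)) ℂ),
          eval y (bind₁ T P) = eval (fun i => y none * p i +
            ((E (fun v => y (some v)) : LinearMap.ker L) : Fin (N + 1) → ℂ) i) P := by
        intro y P
        rw [eval_bind']
        congr 1
        congr 1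
        funext i
        simp only [T, map_add, map_mul, eval_C, eval_X, map_sum]
        rw [mul_comm (p i)]
        congr 1
        have h1 : (fun v => y (some v)) = ∑ v, y (some v) • (Pi.single v (1 : ℂ) :
            (Σ j, Fin (d j)) → ℂ) := by
          funext w
          simp [Finset.sum_apply, Pi.single_apply]
        rw [h1, map_sum]
        simp only [map_smul, Submodule.coe_sum, Submodule.coe_smul, Finset.sum_apply,
          Pi.smul_apply, smul_eq_mul]
        refine Finset.sum_congr rfl fun v _ => ?_
        ring
      have hThom : ∀ j, (bind₁ T (F j)).IsHomogeneous (d j) := by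
        intro j
        have hTi : ∀ i, (T i).IsHomogeneous 1 := by
          intro i
          apply IsHomogeneous.add
          · have := (isHomogeneous_C (Option (Σ j, Fin (d j))) (p i)).mul
              (isHomogeneous_X ℂ (none : Option (Σ j, Fin (d j))))
            rwa [zero_add] at this
          · apply IsHomogeneous.sum
            intro v _
            have := (isHomogeneous_C (Option (Σ j, Fin (d j)))
              (((E (Pi.single v 1) : LinearMap.ker L) : Fin (N + 1) → ℂ) i)).mul
              (isHomogeneous_X ℂ (some v : Option (Σ j, Fin (d j))))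
            rwa [zero_add] at this
        have := (hF j).aeval T hTi
        rw [one_mul] at this
        exact this
      obtain ⟨α, β, b, ⟨v0, hv0⟩, hsol⟩ := sol_all d j0 hj0 (fun j => bind₁ T (F j)) hThom (by
        intro j
        rw [hT]
        rw [← hp j]
        congr 1
        congr 1
        funext i
        simp only [bpt, one_mul]
        have : (E (fun v => 0) : LinearMap.ker L) = 0 := E.map_zero
        rw [this]
        simp)
      have hsol' : ∀ j τ, eval (cpt α β b τ) (bind₁ T (F j)) = 0 := fun j τ =>
        all_of_nat α β b _ (hsol j) τ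
      -- the coordinates of the curve
      let x : Fin (N + 1) → Polynomial ℂ := fun i =>
        Polynomial.C (p i) * (1 + Polynomial.C b * Polynomial.X) +
          Polynomial.X * (Polynomial.C (((E α : LinearMap.ker L) : Fin (N + 1) → ℂ) i) +
            Polynomial.C (((E β : LinearMap.ker L) : Fin (N + 1) → ℂ) i) * Polynomial.X)
      have hx : ∀ τ, (fun i => (x i).eval τ) = (1 + b * τ) • p +
          ((E (fun v => cpt α β b τ (some v)) : LinearMap.ker L) : Fin (N + 1) → ℂ) := by
        intro τ
        have h1 : (fun v => cpt α β b τ (some v)) = τ • α + (τ ^ 2) • β := by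
          funext v
          simp only [cpt, Pi.add_apply, Pi.smul_apply, smul_eq_mul]
          ring
        rw [h1, map_add, map_smul, map_smul]
        funext i
        simp only [x, Polynomial.eval_add, Polynomial.eval_mul, Polynomial.eval_C,
          Polynomial.eval_X, Polynomial.eval_one, Pi.add_apply, Pi.smul_apply, smul_eq_mul,
          Submodule.coe_add, Submodule.coe_smul]
        ring
      refine ⟨x, b, 1, ?_, ?_, ?_, ?_⟩
      · intro i
        simp [x]
      · intro j τ
        have h1 := hsol' j τ
        rw [hT] at h1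
        rw [hx, ← h1]
        rfl
      · intro τ
        rw [hx, ← hL, map_add, map_smul, LinearMap.mem_ker.mp (SetLike.coe_mem _), hL]
        simp only [smul_eq_mul]
        ring
      · have hex : ∃ τ, cpt α β b τ (some v0) ≠ 0 := by
          by_contra hcon
          push Not at hcon
          have h1 := hcon 1
          have h3 := hcon 2
          simp only [cpt] at h1 h3
          have h4 : β v0 = 0 := by linear_combination h3 / 2 - h1
          have h5 : α v0 = 0 := by linear_combination h1 - h4
          rcases hv0 with h | h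
          · exact h h5
          · exact h h4
        obtain ⟨τ, hτ⟩ := hex
        refine ⟨τ, fun c hc => ?_⟩
        rw [hx] at hc
        have h1 : ((E (fun v => cpt α β b τ (some v)) : LinearMap.ker L) : Fin (N + 1) → ℂ) =
            (c - (1 + b * τ)) • p := by
          have h2 : (fun i => c * p i) = c • p := rfl
          rw [h2] at hc
          rw [sub_smul, ← hc]
          abel
        have h2 : (c - (1 + b * τ)) * eval p G = 0 := by
          rw [← hL, ← smul_eq_mul, ← map_smul, ← h1]
          exact LinearMap.mem_ker.mp (SetLike.coe_mem _)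
        have h3 := (mul_eq_zero.mp h2).resolve_right hGp
        rw [h3, zero_smul] at h1
        have h4 : (E (fun v => cpt α β b τ (some v)) : LinearMap.ker L) = 0 := Subtype.ext h1
        have h5 := (LinearEquiv.map_eq_zero_iff E).mp h4
        exact hτ (congrFun h5 v0)

include hF hp in
/-- **Key proposition** -/
theorem key (e : ℕ) (he : 1 ≤ e) (G : MvPolynomial (Fin (N + 1)) ℂ)
    (hG : G.IsHomogeneous e) (hd : ∑ j, d j + e ≤ N + 1) (hGp : eval p G ≠ 0) :
    HasCurve F G p ∨ (e = 1 ∧ (∀ j, d j ≤ 1) ∧ ∑ j, d j = N ∧
      ∀ q, (∀ j, eval q (F j) = 0) → eval q G ≠ 0 → ∃ c : ℂ, q = fun i => c * p i) := by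
  rcases Nat.lt_or_ge e 2 with h | h
  · have : e = 1 := by omega
    subst this
    rcases curve_of_one d F hF p hp G hG hd hGp with h | h
    · exact Or.inl h
    · exact Or.inr ⟨rfl, h⟩
  · exact Or.inl (curve_of_two_le d F hF p hp e h G hG hd hGp)

end

end Pool.Agent.W235.BLV
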