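import Pool.Agent.W235.BLV.Key
import Pool.Agent.H159R3.Exp.Descend

/-!
Integral points and entire curves on complements of hypersurfaces in families of projective
varieties of nonpositive log canonical degree.
-/

set_option autoImplicit false
set_option linter.unusedSectionVars false

namespace Pool.Agent.W235.BLV

open MvPolynomial IsDedekindDomain
open Pool.Agent.H159R3.Exp (Laur)
open scoped NumberField LinearAlgebra.Projectivization

/-- Forms in `x 0, ..., x N` whose coefficients are polynomials in `y 0, ..., y (m-1)`. -/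
abbrev Forms (R : Type*) [CommRing R] (m N : ℕ) : Type _ :=
  MvPolynomial (Fin (N + 1)) (MvPolynomial (Fin m) R)

/-- The value of `P` at `(y, x)`. -/
noncomputable def ev {R L : Type*} [CommRing R] [CommRing L] {m N : ℕ} (φ : R →+* L)
    (y : Fin m → L) (x : Fin (N + 1) → L) (P : Forms R m N) : L :=
  eval₂ (eval₂Hom φ y) x P

/-- The monomial in `x` with exponents `α`. -/
def mon {L : Type*} [CommRing L] {N : ℕ} (x : Fin (N + 1) → L) (α : Fin (N + 1) → ℕ) : L :=
  ∏ i, x i ^ α i

/-- The point `(y, P)` of `A^m × P^N` lies on `V`: it satisfies `F j = 0` for all `j` and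
`G k ≠ 0` for some `k`. -/
def OnV {R L : Type*} [CommRing R] [Field L] {m N : ℕ} {ι θ : Type} (φ : R →+* L)
    (F : ι → Forms R m N) (G : θ → Forms R m N)
    (P : (Fin m → L) × ℙ L (Fin (N + 1) → L)) : Prop :=
  (∀ j, ev φ P.1 P.2.rep (F j) = 0) ∧ ∃ k, ev φ P.1 P.2.rep (G k) ≠ 0

/-- The value at `(y, P)` of the regular function given by the quotient of the monomial with
exponents `α` by `G`. -/
noncomputable def coord {R L : Type*} [CommRing R] [Field L] {m N : ℕ} (φ : R →+* L)
    (G : Forms R m N) (α : Fin (N + 1) → ℕ)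
    (P : (Fin m → L) × ℙ L (Fin (N + 1) → L)) : L :=
  mon P.2.rep α / ev φ P.1 P.2.rep G

section hom

variable {R L : Type*} [CommRing R] [CommRing L] {m N : ℕ} (φ : R →+* L)

theorem ev_eq (y : Fin m → L) (x : Fin (N + 1) → L) (P : Forms R m N) :
    ev φ y x P = eval x (map (eval₂Hom φ y) P) := by
  rw [ev, eval₂_eq_eval_map]

theorem ev_smul (y : Fin m → L) (x : Fin (N + 1) → L) (c : L) {P : Forms R m N} {d : ℕ}
    (hP : P.IsHomogeneous d) : ev φ y (fun i => c * x i) P = c ^ d * ev φ y x P := by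
  rw [ev_eq, ev_eq, eval_smul_of_hom (hP.map _)]

theorem mon_smul (x : Fin (N + 1) → L) (c : L) (α : Fin (N + 1) → ℕ) :
    mon (fun i => c * x i) α = c ^ (∑ i, α i) * mon x α := by
  unfold mon
  rw [← Finset.prod_pow_eq_pow_sum, ← Finset.prod_mul_distrib]
  refine Finset.prod_congr rfl fun i _ => ?_
  rw [mul_pow]

end hom

section rep

variable {R L : Type*} [CommRing R] [Field L] {m N : ℕ} (φ : R →+* L)

theorem exists_rep (x : Fin (N + 1) → L) (hx : x ≠ 0) :
    ∃ c : L, c ≠ 0 ∧ (Projectivization.mk L x hx).rep = fun i => c * x i := by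
  obtain ⟨a, ha⟩ := Projectivization.exists_smul_eq_mk_rep L x hx
  refine ⟨(a : L), a.ne_zero, ?_⟩
  rw [← ha]
  rfl

theorem ev_rep (y : Fin m → L) (x : Fin (N + 1) → L) (hx : x ≠ 0) {P : Forms R m N} {d : ℕ}
    (hP : P.IsHomogeneous d) :
    ev φ y (Projectivization.mk L x hx).rep P = 0 ↔ ev φ y x P = 0 := by
  obtain ⟨c, hc, h⟩ := exists_rep x hx
  rw [h, ev_smul φ y x c hP]
  simp [hc]

theorem coord_mk (y : Fin m → L) (x : Fin (N + 1) → L) (hx : x ≠ 0) {G : Forms R m N} {e : ℕ}
    (hG : G.IsHomogeneous e) (α : Fin (N + 1) → ℕ) (hα : ∑ i, α i = e) :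
    coord φ G α (y, Projectivization.mk L x hx) = mon x α / ev φ y x G := by
  obtain ⟨c, hc, h⟩ := exists_rep x hx
  unfold coord
  simp only
  rw [h, ev_smul φ y x c hG, mon_smul, hα, mul_div_mul_left _ _ (pow_ne_zero _ hc)]

end rep

section defs

/-- A holomorphic map from the complex line to projective space: near every point it is given by
holomorphic homogeneous coordinates without common zeros. -/
def Holomorphic {N : ℕ} (f : ℂ → ℙ ℂ (Fin (N + 1) → ℂ)) : Prop :=
  ∀ ζ₀, ∃ x : ℂ → Fin (N + 1) → ℂ, AnalyticAt ℂ x ζ₀ ∧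
    ∀ᶠ ζ in nhds ζ₀, ∃ h : x ζ ≠ 0, f ζ = Projectivization.mk ℂ (x ζ) h

variable {K : Type} [Field K] {m N : ℕ} {ι θ κ : Type}

/-- Condition (i): every entire curve in `V` lies in the closed subset `V'` given by `H`. -/
def EntireCurvesIn (σ : K →+* ℂ) (F : ι → Forms (𝓞 K) m N) (G : θ → Forms (𝓞 K) m N)
    (H : κ → Forms (𝓞 K) m N) : Prop :=
  ∀ f : ℂ → (Fin m → ℂ) × ℙ ℂ (Fin (N + 1) → ℂ),
    (∀ ζ, OnV (σ.comp (algebraMap (𝓞 K) K)) F G (f ζ)) →
    (∀ i, Differentiable ℂ fun ζ => (f ζ).1 i) → (Holomorphic fun ζ => (f ζ).2) →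
    (∃ ζ ζ', f ζ ≠ f ζ') →
    ∀ ζ l, ev (σ.comp (algebraMap (𝓞 K) K)) (f ζ).1 (f ζ).2.rep (H l) = 0

variable (K) in
/-- The `S`-integral points of `V`: the coordinates `y` are `S`-integers and for every place
outside `S` there is `k` such that the quotients of the monomials of degree `e k` in `x` by `G k`
are integral at that place. -/
def IntegralPoints (L : Type) [Field L] [NumberField L] [Algebra K L]
    (S : Set (HeightOneSpectrum (𝓞 L))) (F : ι → Forms (𝓞 K) m N) (e : θ → ℕ)
    (G : θ → Forms (𝓞 K) m N) : Set ((Fin m → L) × ℙ L (Fin (N + 1) → L)) :=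
  {P | OnV ((algebraMap K L).comp (algebraMap (𝓞 K) K)) F G P ∧ (∀ i, P.1 i ∈ S.integer L) ∧
    ∀ v : HeightOneSpectrum (𝓞 L), v ∉ S → ∃ k,
      ev ((algebraMap K L).comp (algebraMap (𝓞 K) K)) P.1 P.2.rep (G k) ≠ 0 ∧
      ∀ α : Fin (N + 1) → ℕ, ∑ i, α i = e k →
        v.valuation L (coord ((algebraMap K L).comp (algebraMap (𝓞 K) K)) (G k) α P) ≤ 1}

/-- Condition (ii): over every number field `L` containing `K` and for every finite set `S` of
places there are only finitely many `S`-integral points of `V` outside `V'`. -/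
def FinitelyManyIntegral (F : ι → Forms (𝓞 K) m N) (e : θ → ℕ) (G : θ → Forms (𝓞 K) m N)
    (H : κ → Forms (𝓞 K) m N) : Prop :=
  ∀ (L : Type) [Field L] [NumberField L] [Algebra K L] (S : Set (HeightOneSpectrum (𝓞 L))),
    S.Finite → {P ∈ IntegralPoints K L S F e G |
      ∃ l, ev ((algebraMap K L).comp (algebraMap (𝓞 K) K)) P.1 P.2.rep (H l) ≠ 0}.Finite

/-- Every complex point of `V` lies in `V'`. -/
def AllIn (σ : K →+* ℂ) (F : ι → Forms (𝓞 K) m N) (G : θ → Forms (𝓞 K) m N)
    (H : κ → Forms (𝓞 K) m N) : Prop :=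
  ∀ P : (Fin m → ℂ) × ℙ ℂ (Fin (N + 1) → ℂ), OnV (σ.comp (algebraMap (𝓞 K) K)) F G P →
    ∀ l, ev (σ.comp (algebraMap (𝓞 K) K)) P.1 P.2.rep (H l) = 0

end defs

section assembly

variable {K : Type} [Field K] [NumberField K] {m N : ℕ} {ι κ : Type}

/-- the variables `y`, `x`, `z` -/
abbrev Vars (m N : ℕ) : Type := Fin m ⊕ Fin (N + 1) ⊕ Unit

/-- a family of forms as a polynomial in all variables over the field `K` -/
noncomputable def flat : Forms (𝓞 K) m N →+* MvPolynomial (Vars m N) K :=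
  eval₂Hom (eval₂Hom (C.comp (algebraMap (𝓞 K) K)) (fun i => X (Sum.inl i)))
    (fun i => X (Sum.inr (Sum.inl i)))

theorem aeval_flat {M : Type*} [CommRing M] [Algebra K M] (v : Vars m N → M)
    (P : Forms (𝓞 K) m N) :
    aeval v (flat P) = ev ((algebraMap K M).comp (algebraMap (𝓞 K) K)) (fun i => v (Sum.inl i))
      (fun i => v (Sum.inr (Sum.inl i))) P := by
  have h1 : ((aeval v : MvPolynomial (Vars m N) K →ₐ[K] M) :
      MvPolynomial (Vars m N) K →+* M).comp (flat (K := K) (m := m) (N := N)) =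
      eval₂Hom (eval₂Hom ((algebraMap K M).comp (algebraMap (𝓞 K) K)) (fun i => v (Sum.inl i)))
        (fun i => v (Sum.inr (Sum.inl i))) := by
    apply MvPolynomial.ringHom_ext
    · intro p
      have h2 : (((aeval v : MvPolynomial (Vars m N) K →ₐ[K] M) :
          MvPolynomial (Vars m N) K →+* M).comp (flat (K := K) (m := m) (N := N))).comp C =
          (eval₂Hom (eval₂Hom ((algebraMap K M).comp (algebraMap (𝓞 K) K))
            (fun i => v (Sum.inl i))) (fun i => v (Sum.inr (Sum.inl i)))).comp C := by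
        apply MvPolynomial.ringHom_ext
        · intro r
          simp [flat]
        · intro i
          simp [flat]
      exact RingHom.congr_fun h2 p
    · intro i
      simp [flat]
  exact RingHom.congr_fun h1 P

/-- the equations of `V` in the variables `y`, `x`, `z` where `z` is the inverse of `G` -/
noncomputable def eqs (F : ι → Forms (𝓞 K) m N) (G : Forms (𝓞 K) m N) :
    Option ι → MvPolynomial (Vars m N) K
  | some j => flat (F j)
  | none => X (Sum.inr (Sum.inr ())) * flat G - 1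

/-- descent of curves for arbitrary finite sets of variables -/
theorem descend' {s : Type} [Fintype s] {ι : Type} (F : ι → MvPolynomial s K)
    (W : MvPolynomial (s ⊕ s) K) [Algebra K ℂ]
    (v : ℂ → s → ℂ) (hv : ∀ j, Laur (fun t => v t j))
    (hF : ∀ i t, t ≠ 0 → aeval (v t) (F i) = 0) (k1 : ℕ)
    (hW : aeval (Sum.elim (v 1) (v (2 ^ k1))) W ≠ 0) :
    ∃ (L : Type) (_ : Field L) (_ : Algebra K L) (_ : NumberField L) (_ : FiniteDimensional K L)
      (v' : L → s → L), (∀ j, Laur (fun t => v' t j)) ∧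
        (∀ i t, t ≠ 0 → aeval (v' t) (F i) = 0) ∧
        aeval (Sum.elim (v' 1) (v' (2 ^ k1))) W ≠ 0 := by
  let E := Fintype.equivFin s
  obtain ⟨L, i1, i2, i3, i4, v', h1, h2, h3⟩ := Pool.Agent.H159R3.Exp.descend
    (fun i => rename E (F i)) (rename (Sum.map E E) W) (fun t j => v t (E.symm j))
    (fun j => hv _) (by
      intro i t ht
      rw [aeval_rename, ← hF i t ht]
      congr 2
      funext j
      simp) k1 (by
      rw [aeval_rename]
      convert hW using 3
      funext j
      rcases j with j | j <;> simp)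
  refine ⟨L, i1, i2, i3, i4, fun t j => v' t (E j), fun j => h1 _, ?_, ?_⟩
  · intro i t ht
    have := h2 i t ht
    rw [aeval_rename] at this
    exact this
  · rw [aeval_rename] at h3
    convert h3 using 3
    funext j
    rcases j with j | j <;> simp

theorem integral_pts' {L : Type} [Field L] [NumberField L] {s : Type} [Fintype s] (v : L → s → L)
    (hv : ∀ j, Laur (fun t => v t j)) :
    ∃ S : Set (HeightOneSpectrum (𝓞 L)), S.Finite ∧ ∀ (k : ℕ) j, v (2 ^ k) j ∈ S.integer L := by
  let E := Fintype.equivFin s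
  obtain ⟨S, h1, h2⟩ := Pool.Agent.H159R3.Exp.integral_pts (fun t j => v t (E.symm j))
    (fun j => hv _)
  refine ⟨S, h1, fun k j => ?_⟩
  have := h2 k (E j)
  simpa using this

/-- a Laurent curve in the fibre -/
theorem laurent_of_hasCurve {F : ι → MvPolynomial (Fin (N + 1)) ℂ}
    {G : MvPolynomial (Fin (N + 1)) ℂ} {p : Fin (N + 1) → ℂ} (hG : eval p G ≠ 0) (hp0 : p ≠ 0)
    (h : HasCurve F G p) :
    ∃ (x : ℂ → Fin (N + 1) → ℂ) (z : ℂ → ℂ) (k1 : ℕ) (i j : Fin (N + 1)),
      (∀ i, Laur fun t => x t i) ∧ Laur z ∧ (∀ t, t ≠ 0 → ∀ j, eval (x t) (F j) = 0) ∧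
      (∀ t, t ≠ 0 → z t * eval (x t) G = 1) ∧ x 1 = p ∧
      x (2 ^ k1) i * p j - x (2 ^ k1) j * p i ≠ 0 := by
  obtain ⟨X, b, k, h0, hF, hGk, τ0, hτ0⟩ := h
  -- the parameter
  obtain ⟨T, hT1, hTs, U, hU⟩ : ∃ T : Polynomial ℂ, T.eval 1 = 0 ∧
      (∀ s, ∃ u, T.eval u = s) ∧ ∃ U : ℂ → ℂ, Laur U ∧ ∀ u, u ≠ 0 → U u * (1 + b * T.eval u) = 1 := by
    by_cases hb : b = 0
    · refine ⟨Polynomial.X - 1, by simp, fun s => ⟨s + 1, by simp⟩, fun _ => 1, Laur.const 1, ?_⟩
      intro u _
      simp [hb]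
    · refine ⟨Polynomial.C b⁻¹ * (Polynomial.X - 1), by simp, fun s => ⟨b * s + 1, by
        simp [hb]⟩, fun u => u ^ (-1 : ℤ), Laur.zpow _, ?_⟩
      intro u hu
      simp only [Polynomial.eval_mul, Polynomial.eval_C, Polynomial.eval_sub, Polynomial.eval_X,
        Polynomial.eval_one]
      field_simp
      ring
  have hUk : ∀ n : ℕ, Laur fun u => U u ^ n := by
    intro n
    induction n with
    | zero => simpa using Laur.const 1
    | succ n ih =>
      simp only [pow_succ]
      exact ih.mul hU.1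
  have hxL : ∀ i, Laur fun t => (X i).eval (T.eval t) := by
    intro i
    have h1 : (fun t => (X i).eval (T.eval t)) = fun t => ((X i).comp T).eval t := by
      funext t
      rw [Polynomial.eval_comp]
    rw [h1]
    exact Laur.poly _
  have hmin : ∃ i j k1, (X i).eval (T.eval ((2 : ℂ) ^ (k1 : ℕ))) * p j -
      (X j).eval (T.eval ((2 : ℂ) ^ (k1 : ℕ))) * p i ≠ 0 := by
    by_contra hcon
    push Not at hcon
    -- all minors vanish identically
    obtain ⟨u0, hu0⟩ := hTs τ0
    have h1 : ∀ i j, ((X i).comp T) * Polynomial.C (p j) - ((X j).comp T) * Polynomial.C (p i) = 0 := by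
      intro i j
      by_contra hne
      have h2 := Polynomial.finite_setOfPred_isRoot hne
      have h3 : Function.Injective fun n : ℕ => (2 : ℂ) ^ n := by
        intro a b hab
        have h5 : ((2 ^ a : ℕ) : ℂ) = ((2 ^ b : ℕ) : ℂ) := by
          push_cast
          exact hab
        exact Nat.pow_right_injective (le_refl 2) (Nat.cast_injective h5)
      have h4 := (Set.infinite_range_of_injective h3)
      apply h4
      refine h2.subset ?_
      rintro _ ⟨n, rfl⟩
      have h5 := hcon i j n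
      simp only [Set.mem_ofPred_eq, Polynomial.IsRoot.def, Polynomial.eval_sub, Polynomial.eval_mul,
        Polynomial.eval_C, Polynomial.eval_comp]
      exact h5
    obtain ⟨j0, hj0⟩ : ∃ j, p j ≠ 0 := by
      by_contra hcon
      push Not at hcon
      exact hp0 (funext hcon)
    apply hτ0 ((X j0).eval τ0 / p j0)
    funext i
    have h5 := congrArg (Polynomial.eval u0) (h1 i j0)
    simp only [Polynomial.eval_sub, Polynomial.eval_mul, Polynomial.eval_C, Polynomial.eval_comp,
      hu0, Polynomial.eval_zero] at h5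
    field_simp
    linear_combination h5
  obtain ⟨i, j, k1, hij⟩ := hmin
  refine ⟨fun t i => (X i).eval (T.eval t), fun t => (eval p G)⁻¹ * U t ^ k, k1, i, j, hxL,
    (Laur.const _).mul (hUk k), fun t _ j => hF j _, fun t ht => ?_, ?_, hij⟩
  · simp only
    rw [hGk]
    have h1 := hU.2 t ht
    calc (eval p G)⁻¹ * U t ^ k * (eval p G * (1 + b * T.eval t) ^ k)
        = ((eval p G)⁻¹ * eval p G) * (U t * (1 + b * T.eval t)) ^ k := by rw [mul_pow]; ring
      _ = 1 := by rw [h1, inv_mul_cancel₀ hG, one_pow, one_mul]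
  · funext i
    simp only
    rw [hT1, h0]

end assembly

end Pool.Agent.W235.BLV
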