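import Pool.Agent.W235.BLV.Spec

/-!
From conics for a sequence of members of a pencil to a conic for every member.
-/

set_option autoImplicit false

namespace Pool.Agent.W235.BLV

open MvPolynomial Filter

theorem sol_transfer_key {V ι : Type*} (F : ι → MvPolynomial (Option V) ℂ)
    {M : Type*} [Field M] [Algebra ℂ M] (x : V ⊕ V ⊕ Unit → M) (j : ι) (m : ℕ) :
      aeval x (bind₁ (cpt (fun i : V => (X (Sum.inl i) : MvPolynomial (V ⊕ V ⊕ Unit) ℂ))
        (fun i => X (Sum.inr (Sum.inl i))) (X (Sum.inr (Sum.inr ())))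
          (m : MvPolynomial (V ⊕ V ⊕ Unit) ℂ)) (F j)) =
      eval (cpt (fun i => x (Sum.inl i)) (fun i => x (Sum.inr (Sum.inl i)))
        (x (Sum.inr (Sum.inr ()))) (m : M)) (map (algebraMap ℂ M) (F j)) := by
  rw [aeval_bind₁, eval_map, aeval_def]
  congr 1
  have h1 := cpt_map (aeval x : MvPolynomial (V ⊕ V ⊕ Unit) ℂ →ₐ[ℂ] M).toRingHom
    (fun i : V => (X (Sum.inl i) : MvPolynomial (V ⊕ V ⊕ Unit) ℂ))
      (fun i => X (Sum.inr (Sum.inl i))) (X (Sum.inr (Sum.inr ())))
        (m : MvPolynomial (V ⊕ V ⊕ Unit) ℂ)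
  refine h1.trans ?_
  simp

/-- transfer of solutions to `ℂ` -/
theorem sol_transfer {V ι κ : Type*} [Finite V] [Field κ] [Algebra ℂ κ]
    (F : ι → MvPolynomial (Option V) ℂ)
    (h : Sol (fun j => map (algebraMap ℂ κ) (F j))) : Sol F := by
  obtain ⟨α, β, b, ⟨i0, hi0⟩, hF⟩ := h
  have main : ∀ g : MvPolynomial (V ⊕ V ⊕ Unit) ℂ,
      aeval (Sum.elim α (Sum.elim β (fun _ => b))) g ≠ 0 →
      ∃ x : V ⊕ V ⊕ Unit → ℂ, (∀ (j : ι) (m : ℕ),
        eval (cpt (fun i => x (Sum.inl i)) (fun i => x (Sum.inr (Sum.inl i)))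
        (x (Sum.inr (Sum.inr ()))) (m : ℂ)) (F j) = 0) ∧ aeval x g ≠ 0 := by
    intro g hg
    obtain ⟨x, hx, hxg⟩ := H952R2.Sextic.transfer (k := ℂ) (kb := ℂ)
      (fun p : ι × ℕ => bind₁ (cpt (fun i : V => (X (Sum.inl i) : MvPolynomial (V ⊕ V ⊕ Unit) ℂ))
        (fun i => X (Sum.inr (Sum.inl i))) (X (Sum.inr (Sum.inr ())))
          (p.2 : MvPolynomial (V ⊕ V ⊕ Unit) ℂ)) (F p.1)) g
      ⟨Sum.elim α (Sum.elim β (fun _ => b)), fun p => by
        rw [sol_transfer_key]
        exact hF p.1 p.2, hg⟩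
    refine ⟨x, fun j m => ?_, hxg⟩
    have h1 := sol_transfer_key F x j m
    rw [hx (j, m)] at h1
    rw [h1]
    simp
  rcases hi0 with hi0 | hi0
  · obtain ⟨x, hx, hxg⟩ := main (X (Sum.inl i0)) (by simpa using hi0)
    exact ⟨_, _, _, ⟨i0, Or.inl (by simpa using hxg)⟩, hx⟩
  · obtain ⟨x, hx, hxg⟩ := main (X (Sum.inr (Sum.inl i0))) (by simpa using hi0)
    exact ⟨_, _, _, ⟨i0, Or.inr (by simpa using hxg)⟩, hx⟩

/-- the field of germs of complex sequences -/
abbrev GF : Type := Germ ((hyperfilter ℕ : Ultrafilter ℕ) : Filter ℕ) ℂ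

/-- the class of a sequence -/
noncomputable def π : (ℕ → ℂ) →+* GF := Germ.coeRingHom _

theorem π_eq_zero' {x : ℕ → ℂ} (h : π x = 0) : {n | x n = 0}.Infinite := by
  have h1 : (x : GF) = ((0 : ℕ → ℂ) : GF) := h
  rw [Germ.coe_eq] at h1
  intro hfin
  exact (Filter.notMem_hyperfilter_of_finite hfin) h1

/-- constants -/
noncomputable def cst : ℂ →+* GF := π.comp (Pi.constRingHom ℕ ℂ)

theorem poly_ne (lam : ℕ → ℂ) (hlam : Function.Injective lam) (y : Polynomial ℂ) (hy : y ≠ 0) :
    Polynomial.eval₂ cst (π lam) y ≠ 0 := by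
  intro h
  have h1 : Polynomial.eval₂ cst (π lam) y = π (fun n => y.eval (lam n)) := by
    have h2 := Polynomial.hom_eval₂ y (Pi.constRingHom ℕ ℂ) π lam
    rw [show cst = π.comp (Pi.constRingHom ℕ ℂ) from rfl, ← h2]
    congr 1
    funext n
    have h3 := Polynomial.hom_eval₂ y (Pi.constRingHom ℕ ℂ) (Pi.evalRingHom (fun _ => ℂ) n) lam
    have h4 : (Pi.evalRingHom (fun _ => ℂ) n).comp (Pi.constRingHom ℕ ℂ) = RingHom.id ℂ := rfl
    rw [h4] at h3
    exact h3
  rw [h1] at h
  apply π_eq_zero' h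
  have h5 : {n | y.eval (lam n) = 0} = lam ⁻¹' {x | y.IsRoot x} := rfl
  rw [h5]
  exact (Polynomial.finite_setOfPred_isRoot hy).preimage hlam.injOn

/-- a valuation ring of the field of germs at which the germ of `lam` is small -/
theorem exists_val (lam : ℕ → ℂ) (hlam : Function.Injective lam) :
    ∃ (O : ValuationSubring GF) (φ : ℂ →+* O) (μ : O), (∀ z, ((φ z : O) : GF) = cst z) ∧
      (μ : GF) = π lam ∧ IsLocalRing.residue O μ = 0 := by
  let P : Ideal (Polynomial ℂ) := Ideal.span {Polynomial.X}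
  have hP : P.IsPrime := (Ideal.span_singleton_prime Polynomial.X_ne_zero).mpr Polynomial.prime_X
  let g : Polynomial ℂ →+* GF := Polynomial.eval₂RingHom cst (π lam)
  have hg : ∀ y : P.primeCompl, IsUnit (g y) := by
    intro y
    apply IsUnit.mk0
    apply poly_ne lam hlam
    intro h
    apply y.2
    rw [h]
    exact P.zero_mem
  let f : Localization.AtPrime P →+* GF := IsLocalization.lift (M := P.primeCompl) hg
  obtain ⟨O, hO, hloc⟩ := IsLocalRing.exists_factor_valuationRing f
  let f' : Localization.AtPrime P →+* O := f.codRestrict O.toSubring hO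
  have hf' : ∀ z, ((f' z : O) : GF) = f z := fun z => rfl
  refine ⟨O, (f'.comp (algebraMap (Polynomial ℂ) (Localization.AtPrime P))).comp Polynomial.C,
    f' (algebraMap (Polynomial ℂ) (Localization.AtPrime P) Polynomial.X), ?_, ?_, ?_⟩
  · intro z
    change f (algebraMap (Polynomial ℂ) (Localization.AtPrime P) (Polynomial.C z)) = cst z
    rw [IsLocalization.lift_eq]
    simp [g]
  · rw [hf', IsLocalization.lift_eq]
    simp [g]
  · rw [IsLocalRing.residue_eq_zero_iff, IsLocalRing.mem_maximalIdeal, mem_nonunits_iff]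
    intro hu
    have h1 : IsUnit (algebraMap (Polynomial ℂ) (Localization.AtPrime P) Polynomial.X) :=
      hloc.map_nonunit _ hu
    rw [IsLocalization.AtPrime.isUnit_to_map_iff (Localization.AtPrime P) P] at h1
    exact h1 (Ideal.mem_span_singleton_self _)

theorem sol_of_seq {V ι : Type} [Finite V] (F F0 : ι → MvPolynomial (Option V) ℂ) (d : ι → ℕ)
    (hF : ∀ j, (F j).IsHomogeneous (d j)) (hF0 : ∀ j, (F0 j).IsHomogeneous (d j))
    (h0 : ∀ j, eval bpt (F j) = 0) (h00 : ∀ j, eval bpt (F0 j) = 0)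
    (lam : ℕ → ℂ) (hlam : Function.Injective lam) (α γ : ℕ → V → ℂ) (i0 : V)
    (hne : ∀ n, γ n i0 ≠ 0)
    (h : ∀ n j (m : ℕ), (1 - lam n) * eval (cpt (α n) (fun i => γ n i ^ 2) 1 (m : ℂ)) (F j) +
      lam n * eval (cpt (α n) (fun i => γ n i ^ 2) 1 (m : ℂ)) (F0 j) = 0) : Sol F := by
  obtain ⟨O, φ, μ, hφ, hμ, hres⟩ := exists_val lam hlam
  have hcst : Function.Injective cst := cst.injective
  have : CharZero GF := charZero_of_injective_ringHom cst.injective
  let ψ : ℂ →+* IsLocalRing.ResidueField O := (IsLocalRing.residue O).comp φ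
  have : CharZero (IsLocalRing.ResidueField O) := charZero_of_injective_ringHom ψ.injective
  let FO : ι → MvPolynomial (Option V) O := fun j =>
    C (1 - μ) * map φ (F j) + C μ * map φ (F0 j)
  have hbpt : ∀ {k l : Type} [CommRing k] [CommRing l] (θ : k →+* l),
      (bpt : Option V → l) = fun i => θ (bpt i) := by
    intro k l _ _ θ
    funext i
    cases i <;> simp [bpt]
  have hsol : Sol (fun j => map (IsLocalRing.residue O) (FO j)) := by
    refine specialize O FO d ?_ ?_ (fun i => π (fun n => α n i)) (fun i => π (fun n => γ n i)) 1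
      ⟨i0, Or.inr ?_⟩ ?_
    · intro j
      have h1 : (C (1 - μ) * map φ (F j)).IsHomogeneous (d j) := by
        have := (isHomogeneous_C (Option V) (1 - μ)).mul ((hF j).map φ)
        rwa [zero_add] at this
      have h2 : (C μ * map φ (F0 j)).IsHomogeneous (d j) := by
        have := (isHomogeneous_C (Option V) μ).mul ((hF0 j).map φ)
        rwa [zero_add] at this
      exact h1.add h2
    · intro j
      simp only [FO, map_add, map_mul, eval_C]
      rw [hbpt φ, eval_map', eval_map', h0 j, h00 j]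
      simp
    · intro hz
      obtain ⟨n, hn⟩ := (π_eq_zero' hz).nonempty
      exact hne n hn
    · intro j m
      let G : MvPolynomial (Option V) (ℕ → ℂ) :=
        C (1 - lam) * map (Pi.constRingHom ℕ ℂ) (F j) + C lam * map (Pi.constRingHom ℕ ℂ) (F0 j)
      have hG : map (algebraMap O GF) (FO j) = map π G := by
        simp only [FO, G, map_add, map_mul, map_C, MvPolynomial.map_map]
        have e1 : (algebraMap O GF).comp φ = π.comp (Pi.constRingHom ℕ ℂ) := by
          ext z
          exact hφ z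
        have e2 : (algebraMap O GF) μ = π lam := hμ
        rw [e1, map_sub (algebraMap O GF), map_one (algebraMap O GF), e2, map_sub π, map_one π]
      have hp : cpt (fun i => π (fun n => α n i)) (fun i => (π (fun n => γ n i)) ^ 2) 1 (m : GF)
          = fun i => π (cpt (fun i => (fun n => α n i : ℕ → ℂ))
            (fun i => (fun n => γ n i : ℕ → ℂ) ^ 2) 1 (m : ℕ → ℂ) i) := by
        rw [cpt_map]
        simp
      rw [hG, hp, eval_map']
      rw [show eval _ G = 0 from ?_, map_zero]
      funext n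
      change Pi.evalRingHom (fun _ => ℂ) n (eval _ G) = 0
      rw [← eval_map', cpt_map]
      have e3 : (Pi.evalRingHom (fun _ => ℂ) n).comp (Pi.constRingHom ℕ ℂ) = RingHom.id ℂ := rfl
      simp only [G, map_add, map_mul, map_C, MvPolynomial.map_map, eval_C]
      rw [e3, MvPolynomial.map_id, MvPolynomial.map_id]
      have h1 := h n j m
      simp only [Pi.evalRingHom_apply, Pi.sub_apply, Pi.one_apply, Pi.pow_apply, map_natCast]
      exact h1
  have hmap : (fun j => map (IsLocalRing.residue O) (FO j)) = fun j => map ψ (F j) := by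
    funext j
    simp only [FO, map_add, map_mul, map_C, MvPolynomial.map_map, hres, map_sub, map_one, map_zero]
    rw [sub_zero, one_mul, zero_mul, add_zero]
  rw [hmap] at hsol
  let _ := ψ.toAlgebra
  exact sol_transfer F hsol

end Pool.Agent.W235.BLV
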